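import Pool.Statements.S00938
import Pool.Agent.W5h53.OB.Fix
import Pool.Agent.W5h53.OB.Unb
-- import your own Pool.Agent.* helpers here

set_option autoImplicit false
open Pool Pool.MP_23009a_al

namespace Pool.Agent.S00938

/-- The negation of the preceding statement: For every non-Archimedean Polish group G: all continuous isometric actions of G on metric spaces have bounded orbits if and only if every continuous affine isometric action of G on a reflexive real Banach space has a fixed point. -/
theorem result :
    ¬ (∀ (G : Type) [Group G] [TopologicalSpace G] [NonarchimedeanGroup G] [PolishSpace G],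
      (∀ (X : Type) [MetricSpace X] (ρ : G →* (X ≃ᵢ X)),
          (∀ x : X, Continuous (fun g : G => ρ g x)) →
          ∀ x : X, Bornology.IsBounded (Set.range (fun g : G => ρ g x)))
      ↔
      (∀ (E : Type) [NormedAddCommGroup E] [NormedSpace ℝ E] [CompleteSpace E],
          Function.Surjective (NormedSpace.inclusionInDoubleDual ℝ E) →
          ∀ ρ : G →* (E ≃ᵃⁱ[ℝ] E),
            (∀ v : E, Continuous (fun g : G => ρ g v)) →
            ∃ v : E, ∀ g : G, ρ g v = v)) := by
  intro hall
  have h1 := (@hall Pool.Agent.W5h53.OB.G _ Pool.Agent.W5h53.OB.instTopG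
    Pool.Agent.W5h53.OB.instNonarchG Pool.Agent.W5h53.OB.instPolishG).2
    (fun E _ _ _ hE ρ hρ => Pool.Agent.W5h53.OB.exists_fix ρ hE hρ)
    Pool.Agent.W5h53.OB.MX Pool.Agent.W5h53.OB.act Pool.Agent.W5h53.OB.act_cont
    (show Pool.Agent.W5h53.OB.MX from (0 : Pool.Agent.W5h53.OB.M))
  exact Pool.Agent.W5h53.OB.act_unb h1

end Pool.Agent.S00938
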