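import Pool.Statements.S03469
import Pool.Agent.W5h54.EN.Final

set_option autoImplicit false
open Pool Pool.MP_ecbc69_al

namespace Pool.Agent.S03469

open Pool.Agent.W5h54.EN in
/-- For every unital ring satisfying a multilinear polynomial identity with a coefficient 1, and every n ≥ 3, the subgroup of GL_n(R) generated by elementary transvections I + rE_ij (i ≠ j) is normal in GL_n(R). -/
theorem result :
    ∀ (R : Type) [Ring R],
      (∃ d : ℕ, 0 < d ∧ ∃ c : Equiv.Perm (Fin d) → ℤ, c 1 = 1 ∧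
        ∀ x : Fin d → R,
          ∑ σ : Equiv.Perm (Fin d), ((c σ : ℤ) : R) * (List.ofFn (fun i => x (σ i))).prod = 0) →
      ∀ n : ℕ, 3 ≤ n →
        (Subgroup.closure
          {g : Matrix.GeneralLinearGroup (Fin n) R |
            ∃ i j : Fin n, i ≠ j ∧ ∃ r : R,
              (g : Matrix (Fin n) (Fin n) R) =
                1 + Matrix.of (fun a b => if a = i ∧ b = j then r else 0)}).Normal := by
  intro R _ hPI n hn
  obtain ⟨d, _, c, hc, hid⟩ := hPI
  have hMI : Pool.Agent.W5h54.EN.MI d c R := by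
    intro x
    rw [← hid x]
    refine Finset.sum_congr rfl fun σ _ => ?_
    rw [zsmul_eq_mul]
  have h3 : ∀ i j : Fin n, ∃ k, k ≠ i ∧ k ≠ j := by
    intro i j
    by_contra hcon
    push Not at hcon
    have h0 := hcon ⟨0, by omega⟩
    have h1 := hcon ⟨1, by omega⟩
    have h2 := hcon ⟨2, by omega⟩
    simp only [ne_eq, Fin.ext_iff] at h0 h1 h2
    omega
  have hnt : Nontrivial (Fin n) := ⟨⟨⟨0, by omega⟩, ⟨1, by omega⟩, by simp [Fin.ext_iff]⟩⟩
  have hset : {g : Matrix.GeneralLinearGroup (Fin n) R |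
      ∃ i j : Fin n, i ≠ j ∧ ∃ r : R,
        (g : Matrix (Fin n) (Fin n) R) =
          1 + Matrix.of (fun a b => if a = i ∧ b = j then r else 0)} =
      {g : (Matrix (Fin n) (Fin n) R)ˣ | ∃ i j : Fin n, ∃ h : i ≠ j, ∃ r ∈ (Set.univ : Set R),
        g = tv i j h r} := by
    have hsing : ∀ (i j : Fin n) (r : R),
        (Matrix.of (fun a b => if a = i ∧ b = j then r else 0) : Matrix (Fin n) (Fin n) R) =
          Matrix.single i j r := by
      intro i j r
      ext a b
      rw [Matrix.of_apply, Matrix.single_apply]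
      by_cases h : a = i ∧ b = j
      · rw [if_pos h, if_pos ⟨h.1.symm, h.2.symm⟩]
      · rw [if_neg h, if_neg (fun h' => h ⟨h'.1.symm, h'.2.symm⟩)]
    ext g
    constructor
    · rintro ⟨i, j, hij, r, hg⟩
      refine ⟨i, j, hij, r, trivial, ?_⟩
      apply Units.ext
      rw [hg, hsing]
      rfl
    · rintro ⟨i, j, hij, r, _, rfl⟩
      refine ⟨i, j, hij, r, ?_⟩
      rw [hsing]
      rfl
  rw [hset]
  refine ⟨fun x hx g => ?_⟩
  exact normal_PI h3 hc R hMI g x hx

end Pool.Agent.S03469
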