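import Pool.Statements.S05947
import Pool.Agent.W5h51.SO.Fin

set_option autoImplicit false
open MeasureTheory Matrix
open Pool Pool.MP_bc76ba_an

namespace Pool.Agent.S05947

/-- For an expanding integer matrix R and finite digit set B in Z^d, if the equal-weight self-affine measure is spectral, then the pieces R^{-1}(T+b) of its attractor T pairwise meet in a set of measure zero. -/
theorem result :
  ∀ (d : ℕ) (R : Matrix (Fin d) (Fin d) ℤ) (B : Finset (Fin d → ℤ))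
    (φ : (Fin d → ℤ) → (Fin d → ℝ) → (Fin d → ℝ))
    (μ : MeasureTheory.Measure (Fin d → ℝ)),
    (∀ z : ℂ, (R.map (Int.castRingHom ℂ)).charpoly.IsRoot z → 1 < ‖z‖) →
    (∀ b x, φ b x = (R.map (Int.castRingHom ℝ))⁻¹ *ᵥ (x + fun i => (b i : ℝ))) →
    MeasureTheory.IsProbabilityMeasure μ →
    μ = ∑ b ∈ B, ((B.card : ENNReal)⁻¹) • μ.map (φ b) →
    (∃ (Λ : Set (Fin d → ℝ)) (e : Λ → MeasureTheory.Lp ℂ 2 μ),
      (∀ l : Λ, (e l : (Fin d → ℝ) → ℂ) =ᵐ[μ]
        fun x => Complex.exp (2 * Real.pi * Complex.I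
          * ((∑ i, (l : Fin d → ℝ) i * x i : ℝ) : ℂ))) ∧
      Orthonormal ℂ e ∧
      (Submodule.span ℂ (Set.range e)).topologicalClosure = ⊤) →
    ∀ T : Set (Fin d → ℝ), IsCompact T → T.Nonempty → T = ⋃ b ∈ B, φ b '' T →
    ∀ b ∈ B, ∀ b' ∈ B, b ≠ b' → μ (φ b '' T ∩ φ b' '' T) = 0 := by
  intro d R B φ μ hR hφ hμ hself hspec T hTc hTne hT b hb b' hb' hne
  obtain ⟨h1, h2, h3⟩ := Pool.Agent.W5h51.SO.int_expanding R hR
  set Rr : Matrix (Fin d) (Fin d) ℝ := R.map (Int.castRingHom ℝ) with hRr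
  let A : (Fin d → ℝ) →ₗ[ℝ] (Fin d → ℝ) := Matrix.mulVecLin Rr⁻¹
  let Ri : (Fin d → ℤ) →+ (Fin d → ℤ) := (Matrix.mulVecLin R).toAddMonoidHom
  have hφ' : ∀ b, φ b = fun x => A (x + Pool.Agent.W5h51.SO.cst d b) := by
    intro b
    funext x
    exact hφ b x
  have hcomp : ∀ z : Fin d → ℤ, A (Pool.Agent.W5h51.SO.cst d (Ri z)) =
      Pool.Agent.W5h51.SO.cst d z := by
    intro z
    have e1 : Pool.Agent.W5h51.SO.cst d (Ri z) = Rr *ᵥ (Pool.Agent.W5h51.SO.cst d z) := by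
      funext i
      change (((R *ᵥ z) i : ℤ) : ℝ) = (Rr *ᵥ (fun j => (z j : ℝ))) i
      simp only [Matrix.mulVec, dotProduct, hRr, Matrix.map_apply, Int.coe_castRingHom]
      push_cast
      rfl
    rw [e1]
    change Rr⁻¹ *ᵥ (Rr *ᵥ (Pool.Agent.W5h51.SO.cst d z)) = Pool.Agent.W5h51.SO.cst d z
    rw [Matrix.mulVec_mulVec, h1, Matrix.one_mulVec]
  have hpow : ∀ (n : ℕ) (x : Fin d → ℝ), (A ^ n) x = (Rr⁻¹ ^ n) *ᵥ x := by
    intro n x
    induction n generalizing x with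
    | zero => simp
    | succ n ih =>
      rw [pow_succ, Module.End.mul_apply, ih, pow_succ, ← Matrix.mulVec_mulVec]
      rfl
  have hsys : Pool.Agent.W5h51.SO.Sys A Ri B μ T := by
    refine ⟨hcomp, fun x => ?_, ?_, hμ, ?_, hTc, hTne, ?_⟩
    · have := h3 x
      refine this.congr fun n => ?_
      exact (hpow n x).symm
    · intro x y hxy
      have e2 : Rr *ᵥ (Rr⁻¹ *ᵥ x) = Rr *ᵥ (Rr⁻¹ *ᵥ y) := congrArg (fun z => Rr *ᵥ z) hxy
      rwa [Matrix.mulVec_mulVec, Matrix.mulVec_mulVec, h2, Matrix.one_mulVec,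
        Matrix.one_mulVec] at e2
    · intro s hs
      have hmeas : ∀ b : Fin d → ℤ, Measurable (φ b) := by
        intro b
        rw [hφ']
        have hc : Continuous A := LinearMap.continuous_of_finiteDimensional A
        exact (hc.comp (continuous_id.add continuous_const)).measurable
      conv_lhs => rw [hself]
      rw [Measure.finsetSum_apply, Finset.mul_sum]
      refine Finset.sum_congr rfl fun b _ => ?_
      rw [Measure.smul_apply, smul_eq_mul, Measure.map_apply (hmeas b) hs, hφ']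
    · conv_lhs => rw [hT]
      simp only [hφ']
  have hs : Pool.Agent.W5h51.SO.IsSpectral μ := hspec
  have := hsys.no_overlap hs hb hb' hne
  rw [hφ' b, hφ' b']
  exact this

end Pool.Agent.S05947
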