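import Pool.Statements.S06395
import Pool.Agent.W5h47.Krall.Main

set_option autoImplicit false
open MeasureTheory Polynomial
open Pool Pool.MP_dd438b_an

namespace Pool.Agent.S06395

/-- If real polynomials pₙ of degree n are orthogonal for both ∫fg dφ and ∫fg dφ+∫f'g' dψ+∫f''g'' dη (η≠0, φ infinite support, finite moments), then some pₙ(ax+b) is orthogonal for a classical or Krall-type measure. -/
theorem result :
  ∀ (φ ψ η : MeasureTheory.Measure ℝ) (p : ℕ → Polynomial ℝ),
    (∀ k : ℕ, MeasureTheory.Integrable (fun x : ℝ => x ^ k) φ) →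
    (∀ k : ℕ, MeasureTheory.Integrable (fun x : ℝ => x ^ k) ψ) →
    (∀ k : ℕ, MeasureTheory.Integrable (fun x : ℝ => x ^ k) η) →
    (∀ s : Finset ℝ, φ ((↑s : Set ℝ)ᶜ) ≠ 0) →
    η ≠ 0 →
    (∀ n : ℕ, (p n).degree = ((n : ℕ) : WithBot ℕ)) →
    (∀ n m : ℕ, n ≠ m → ∫ x, (p n).eval x * (p m).eval x ∂φ = 0) →
    (∀ n : ℕ, ∫ x, (p n).eval x * (p n).eval x ∂φ ≠ 0) →
    (∀ n m : ℕ, n ≠ m →
      (∫ x, (p n).eval x * (p m).eval x ∂φ)
        + (∫ x, (Polynomial.derivative (p n)).eval x
              * (Polynomial.derivative (p m)).eval x ∂ψ)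
        + (∫ x, (Polynomial.derivative (Polynomial.derivative (p n))).eval x
              * (Polynomial.derivative (Polynomial.derivative (p m))).eval x ∂η) = 0) →
    (∀ n : ℕ,
      (∫ x, (p n).eval x * (p n).eval x ∂φ)
        + (∫ x, (Polynomial.derivative (p n)).eval x
              * (Polynomial.derivative (p n)).eval x ∂ψ)
        + (∫ x, (Polynomial.derivative (Polynomial.derivative (p n))).eval x
              * (Polynomial.derivative (Polynomial.derivative (p n))).eval x ∂η) ≠ 0) →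
    ∃ μ : MeasureTheory.Measure ℝ,
      ((∃ α β : ℝ, -1 < α ∧ -1 < β ∧
          μ = MeasureTheory.volume.withDensity (fun x : ℝ => ENNReal.ofReal
            ((Set.Icc (-1 : ℝ) 1).indicator (fun y : ℝ => (1 - y) ^ α * (1 + y) ^ β) x)))
        ∨ (∃ α : ℝ, -1 < α ∧
          μ = MeasureTheory.volume.withDensity (fun x : ℝ => ENNReal.ofReal
            ((Set.Ioi (0 : ℝ)).indicator (fun y : ℝ => y ^ α * Real.exp (-y)) x)))
        ∨ (μ = MeasureTheory.volume.withDensity (fun x : ℝ => ENNReal.ofReal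
            (Real.exp (-(x ^ 2)))))
        ∨ (∃ A : ℝ, 0 < A ∧
          μ = MeasureTheory.volume.restrict (Set.Icc (-1 : ℝ) 1)
            + ENNReal.ofReal (1 / A) • (MeasureTheory.Measure.dirac (-1 : ℝ)
                + MeasureTheory.Measure.dirac (1 : ℝ)))
        ∨ (∃ R : ℝ, 0 < R ∧
          μ = MeasureTheory.volume.withDensity (fun x : ℝ => ENNReal.ofReal
            ((Set.Ioi (0 : ℝ)).indicator (fun y : ℝ => Real.exp (-y)) x))
            + ENNReal.ofReal (1 / R) • MeasureTheory.Measure.dirac (0 : ℝ))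
        ∨ (∃ α M : ℝ, -1 < α ∧ 0 < M ∧
          μ = MeasureTheory.volume.withDensity (fun x : ℝ => ENNReal.ofReal
            ((Set.Ico (0 : ℝ) 1).indicator (fun y : ℝ => (1 - y) ^ α) x))
            + ENNReal.ofReal (1 / M) • MeasureTheory.Measure.dirac (0 : ℝ)))
      ∧ ∃ a b : ℝ, a ≠ 0 ∧
        (∀ n : ℕ, ((p n).comp (Polynomial.C a * Polynomial.X + Polynomial.C b)).degree
            = ((n : ℕ) : WithBot ℕ)) ∧
        (∀ n m : ℕ, n ≠ m →
          ∫ x, ((p n).comp (Polynomial.C a * Polynomial.X + Polynomial.C b)).eval x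
            * ((p m).comp (Polynomial.C a * Polynomial.X + Polynomial.C b)).eval x ∂μ = 0) ∧
        (∀ n : ℕ,
          ∫ x, ((p n).comp (Polynomial.C a * Polynomial.X + Polynomial.C b)).eval x
            * ((p n).comp (Polynomial.C a * Polynomial.X + Polynomial.C b)).eval x ∂μ ≠ 0) := by
  intro φ ψ η p hφ hψ hη hinf hη0 hdeg horth hne hS _
  obtain ⟨μ, hμ, a, b, l, ha, hl, hg⟩ :=
    Pool.Agent.W5h47.Krall.main φ ψ η p hφ hψ hη hinf hη0 hdeg horth hS
  have hdeg1 : (Polynomial.C a * Polynomial.X + Polynomial.C b : Polynomial ℝ).natDegree = 1 :=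
    Polynomial.natDegree_linear ha
  have hint : ∀ n m : ℕ,
      ∫ x, ((p n).comp (Polynomial.C a * Polynomial.X + Polynomial.C b)).eval x
        * ((p m).comp (Polynomial.C a * Polynomial.X + Polynomial.C b)).eval x ∂μ
      = l⁻¹ * ∫ x, (p n).eval x * (p m).eval x ∂φ := by
    intro n m
    have h := hg (p n * p m)
    rw [Pool.Agent.W5h47.Krall.measFn_ev] at h
    simp only [Polynomial.eval_mul, Polynomial.mul_comp] at h
    rw [h, ← mul_assoc, inv_mul_cancel₀ hl.ne', one_mul]
  refine ⟨μ, hμ, a, b, ha, ?_, ?_, ?_⟩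
  · intro n
    have hpn : p n ≠ 0 := by
      intro h
      have := hdeg n
      rw [h, Polynomial.degree_zero] at this
      exact absurd this.symm (WithBot.coe_ne_bot)
    have h1 : (p n).natDegree = n := Polynomial.natDegree_eq_of_degree_eq_some (hdeg n)
    have h2 : ((p n).comp (Polynomial.C a * Polynomial.X + Polynomial.C b)).natDegree = n := by
      rw [Polynomial.natDegree_comp, hdeg1, mul_one, h1]
    have h3 : (p n).comp (Polynomial.C a * Polynomial.X + Polynomial.C b) ≠ 0 := by
      intro h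
      have h4 := Pool.Agent.W5h47.Krall.comp_TS b ha (p n)
      rw [Pool.Agent.W5h47.Krall.TT, h, Polynomial.zero_comp] at h4
      exact hpn h4.symm
    rw [Polynomial.degree_eq_natDegree h3, h2]
  · intro n m hnm
    rw [hint, horth n m hnm, mul_zero]
  · intro n
    rw [hint]
    exact mul_ne_zero (inv_ne_zero hl.ne') (hne n)

end Pool.Agent.S06395
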