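import Pool.Statements.S07181
import Pool.Agent.Helper635.LLL

set_option autoImplicit false
open Pool Pool.MP_0dd31c_co

namespace Pool.Agent.S07181

open Finset

/-- In `2k` consecutive positions, paired as `2i, 2i+1`, exactly `k` get the colour `true`. -/
lemma count_pairs (h : ℕ → Bool) (k : ℕ) :
    ((range (2 * k)).filter (fun i => (xor (h (i / 2)) (decide (i % 2 = 0))) = true)).card = k := by
  induction k with
  | zero => simp
  | succ k ih =>
    have e1 : range (2 * (k + 1)) = insert (2 * k + 1) (insert (2 * k) (range (2 * k))) := by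
      ext i; simp only [mem_insert, mem_range]; omega
    rw [e1, filter_insert, filter_insert]
    have h1 : (2 * k + 1) / 2 = k := by omega
    have h2 : (2 * k) / 2 = k := by omega
    have h3 : (2 * k + 1) % 2 = 1 := by omega
    have h4 : (2 * k) % 2 = 0 := by omega
    rw [h1, h2, h3, h4]
    have n1 : 2 * k + 1 ∉ (range (2 * k)).filter
        (fun i => (xor (h (i / 2)) (decide (i % 2 = 0))) = true) := by
      simp
    have n2 : 2 * k ∉ (range (2 * k)).filter
        (fun i => (xor (h (i / 2)) (decide (i % 2 = 0))) = true) := by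
      simp
    cases hh : h k
    · simp only [Bool.false_xor]
      rw [if_neg (by simp), if_pos (by simp), card_insert_of_notMem n2, ih]
    · simp only [Bool.true_xor]
      rw [if_pos (by simp), if_neg (by simp), card_insert_of_notMem n1, ih]

open Classical in
/-- Number of functions with prescribed values on `S`. -/
lemma card_prescribed {T : Type} [Fintype T] (S : Finset T) (g : T → Bool) :
    Pool.Agent.Helper635.LLL.cnt (fun ω : T → Bool => ∀ t ∈ S, ω t = g t) * 2 ^ S.card
      = 2 ^ Fintype.card T := by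
  have h1 : Pool.Agent.Helper635.LLL.ev (fun ω : T → Bool => ∀ t ∈ S, ω t = g t)
      = Fintype.piFinset (fun t => if t ∈ S then {g t} else (univ : Finset Bool)) := by
    ext ω
    rw [Pool.Agent.Helper635.LLL.mem_ev]
    simp only [Fintype.mem_piFinset]
    refine forall_congr' fun t => ?_
    by_cases ht : t ∈ S <;> simp [ht]
  rw [Pool.Agent.Helper635.LLL.cnt, h1, Fintype.card_piFinset]
  have h2 : ∀ t : T, (if t ∈ S then {g t} else (univ : Finset Bool)).card
      = if t ∈ S then 1 else 2 := by
    intro t; by_cases ht : t ∈ S <;> simp [ht]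
  simp_rw [h2]
  rw [prod_ite]
  simp only [prod_const_one, one_mul, prod_const]
  have h3 : (univ.filter (fun t : T => t ∉ S)).card = Fintype.card T - S.card := by
    have : univ.filter (fun t : T => t ∉ S) = univ \ S := by ext t; simp
    rw [this, card_sdiff_of_subset (subset_univ _), card_univ]
  rw [h3, ← pow_add, Nat.sub_add_cancel (card_le_univ S)]

open Classical in
lemma cnt_or {T : Type} [Fintype T] (P Q : (T → Bool) → Prop) :
    Pool.Agent.Helper635.LLL.cnt (fun ω => P ω ∨ Q ω) ≤
      Pool.Agent.Helper635.LLL.cnt P + Pool.Agent.Helper635.LLL.cnt Q := by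
  refine le_trans (card_le_card ?_) (card_union_le _ _)
  intro ω hω
  rw [Pool.Agent.Helper635.LLL.mem_ev] at hω
  rw [mem_union, Pool.Agent.Helper635.LLL.mem_ev, Pool.Agent.Helper635.LLL.mem_ev]
  exact hω

/-- For every c in (1,2) there is n0 such that for n ≥ n0 every n-uniform finite hypergraph with all degrees at most c^n has a red set of exactly half (floor) of its vertices such that no edge is all red or all blue. -/
theorem result :
    ∀ c : ℝ, 1 < c → c < 2 →
      ∃ n₀ : ℕ, ∀ n : ℕ, n₀ ≤ n →
        ∀ F : Finset (Finset ℕ),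
          (∀ A ∈ F, A.card = n) →
          (∀ v : ℕ, ((F.filter (fun A => v ∈ A)).card : ℝ) ≤ c ^ n) →
          ∃ R : Finset ℕ, R ⊆ F.biUnion id ∧
            R.card = (F.biUnion id).card / 2 ∧
            ∀ A ∈ F, (A ∩ R).Nonempty ∧ ¬ A ⊆ R := by
  intro c hc1 hc2
  have hlim : Filter.Tendsto (fun n : ℕ => (n : ℝ) * (c / 2) ^ n) Filter.atTop (nhds 0) :=
    tendsto_self_mul_const_pow_of_lt_one (by positivity) (by linarith)
  have hev := hlim.eventually (gt_mem_nhds (show (0 : ℝ) < 1 / 16 by norm_num))
  obtain ⟨n1, hn1⟩ := Filter.eventually_atTop.1 hev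
  refine ⟨max n1 1, ?_⟩
  intro n hn F hF hdeg
  classical
  have hnn1 : n1 ≤ n := le_trans (le_max_left _ _) hn
  have hn0 : 1 ≤ n := le_trans (le_max_right _ _) hn
  have hsmall := hn1 n hnn1
  set V := F.biUnion id with hV
  set m := V.card with hm
  -- enumeration of the vertices
  let e : ℕ → ℕ := fun v => if h : v ∈ V then (V.equivFin ⟨v, h⟩ : ℕ) else 0
  have he_lt : ∀ v ∈ V, e v < m := by
    intro v hv
    simp only [e, dif_pos hv]
    exact (V.equivFin ⟨v, hv⟩).2
  have he_inj : ∀ v ∈ V, ∀ w ∈ V, e v = e w → v = w := by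
    intro v hv w hw h
    simp only [e, dif_pos hv, dif_pos hw] at h
    have := V.equivFin.injective (Fin.ext h)
    exact congrArg Subtype.val this
  have he_img : V.image e = range m := by
    apply Finset.eq_of_subset_of_card_le
    · intro i hi
      obtain ⟨v, hv, rfl⟩ := mem_image.1 hi
      exact mem_range.2 (he_lt v hv)
    · rw [card_range, card_image_of_injOn (fun v hv w hw h => he_inj v hv w hw h)]
  have hAV : ∀ A ∈ F, A ⊆ V := fun A hA => subset_biUnion_of_mem (u := id) hA
  -- index of the pair of a vertex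
  let T := Fin (m + 1)
  let idx : ℕ → T := fun v => Fin.ofNat (m + 1) (e v / 2)
  have hidx_val : ∀ v ∈ V, (idx v : ℕ) = e v / 2 := by
    intro v hv
    have := he_lt v hv
    simp only [idx, Fin.ofNat]
    exact Nat.mod_eq_of_lt (by omega)
  let par : ℕ → Bool := fun v => decide (e v % 2 = 0)
  let col : (T → Bool) → ℕ → Bool := fun ω v => xor (ω (idx v)) (par v)
  let B : Finset ℕ → (T → Bool) → Prop := fun A ω =>
    (∀ v ∈ A, col ω v = true) ∨ (∀ v ∈ A, col ω v = false)
  let S : Finset ℕ → Finset T := fun A => A.image idx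
  have hdep : ∀ A ∈ F, Pool.Agent.Helper635.LLL.DependsOn (B A) (S A) := by
    intro A _ ω ω' hω hB
    have hcol : ∀ v ∈ A, col ω v = col ω' v := by
      intro v hv
      simp only [col]
      rw [hω (idx v) (mem_image_of_mem _ hv)]
    rcases hB with h | h
    · left; intro v hv; rw [← hcol v hv]; exact h v hv
    · right; intro v hv; rw [← hcol v hv]; exact h v hv
  -- probability of a monochromatic edge
  have hcnt : ∀ A ∈ F, (Pool.Agent.Helper635.LLL.cnt (B A) : ℝ)
      ≤ (2 * (1 / 2) ^ n) * Fintype.card (T → Bool) := by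
    intro A hA
    have hAn := hF A hA
    by_cases hinj : Set.InjOn idx (A : Set ℕ)
    · -- the pair index is injective on A
      have hScard : (S A).card = n := by rw [← hAn]; exact card_image_of_injOn hinj
      -- for each target colour, the event prescribes the values on S A
      have hone : ∀ b : Bool, Pool.Agent.Helper635.LLL.cnt
          (fun ω : T → Bool => ∀ v ∈ A, col ω v = b) * 2 ^ n ≤ 2 ^ Fintype.card T := by
        intro b
        have hex : ∀ t : T, ∃ x : Bool, ∀ v ∈ A, idx v = t → x = xor b (par v) := by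
          intro t
          by_cases h : ∃ v ∈ A, idx v = t
          · obtain ⟨v, hv, hvt⟩ := h
            refine ⟨xor b (par v), fun w hw hwt => ?_⟩
            have : v = w := hinj hv hw (hvt.trans hwt.symm)
            rw [this]
          · exact ⟨true, fun v hv hvt => absurd ⟨v, hv, hvt⟩ h⟩
        choose g hg using hex
        have := card_prescribed (S A) g
        rw [hScard] at this
        rw [← this]
        apply Nat.mul_le_mul_right
        apply Pool.Agent.Helper635.LLL.cnt_mono
        intro ω hω t ht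
        obtain ⟨v, hv, rfl⟩ := mem_image.1 ht
        have h1 := hω v hv
        rw [hg (idx v) v hv rfl, ← h1]
        simp [col]
      have hle : Pool.Agent.Helper635.LLL.cnt (B A) * 2 ^ n ≤ 2 * 2 ^ Fintype.card T := by
        have h1 := cnt_or (fun ω : T → Bool => ∀ v ∈ A, col ω v = true)
          (fun ω : T → Bool => ∀ v ∈ A, col ω v = false)
        have h2 := hone true
        have h3 := hone false
        calc Pool.Agent.Helper635.LLL.cnt (B A) * 2 ^ n ≤ _ := Nat.mul_le_mul_right _ h1
          _ ≤ 2 * 2 ^ Fintype.card T := by rw [add_mul]; omega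
      have hcardT : Fintype.card (T → Bool) = 2 ^ Fintype.card T := by simp
      rw [hcardT]
      have hle' : (Pool.Agent.Helper635.LLL.cnt (B A) : ℝ) * 2 ^ n ≤ 2 * 2 ^ Fintype.card T := by
        exact_mod_cast hle
      have hpow : (0 : ℝ) < 2 ^ n := by positivity
      have hx : (Pool.Agent.Helper635.LLL.cnt (B A) : ℝ) ≤ (2 * 2 ^ Fintype.card T) / 2 ^ n := by
        rw [le_div_iff₀ hpow]; exact hle'
      refine hx.trans (le_of_eq ?_)
      push_cast
      rw [one_div, inv_pow]
      field_simp
    · -- two vertices in one pair: never monochromatic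
      have hex : ∃ v ∈ A, ∃ w ∈ A, idx v = idx w ∧ v ≠ w := by
        by_contra hcon
        push Not at hcon
        exact hinj (fun v hv w hw h => hcon v hv w hw h)
      obtain ⟨v, hv, w, hw, hvw, hne⟩ := hex
      have hvV := hAV A hA hv
      have hwV := hAV A hA hw
      have h1 := hidx_val v hvV
      have h2 := hidx_val w hwV
      have h3 : e v / 2 = e w / 2 := by rw [← h1, ← h2, hvw]
      have h4 : e v ≠ e w := fun h => hne (he_inj v hvV w hwV h)
      have hpar : par v ≠ par w := by
        simp only [par]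
        intro h
        have h5 : (e v % 2 = 0) ↔ (e w % 2 = 0) := by
          by_cases ha : e v % 2 = 0 <;> by_cases hb : e w % 2 = 0 <;> simp [ha, hb] at h ⊢
        omega
      have hzero : Pool.Agent.Helper635.LLL.cnt (B A) = 0 := by
        unfold Pool.Agent.Helper635.LLL.cnt
        rw [card_eq_zero, Finset.eq_empty_iff_forall_notMem]
        intro ω hω
        rw [Pool.Agent.Helper635.LLL.mem_ev] at hω
        have hcc : col ω v = col ω w := by
          rcases hω with h | h
          · rw [h v hv, h w hw]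
          · rw [h v hv, h w hw]
        simp only [col, hvw] at hcc
        revert hcc
        cases ω (idx w) <;> cases hpv : par v <;> cases hpw : par w <;> simp [hpv, hpw] at hpar ⊢
      rw [hzero]
      simp only [Nat.cast_zero]
      positivity
  -- degrees in the dependency graph
  have hdegb : ∀ A ∈ F, (F.filter (fun A' => ¬ Disjoint (S A) (S A'))).card ≤ ⌊2 * (n : ℝ) * c ^ n⌋₊ := by
    intro A hA
    apply Nat.le_floor
    let P : ℕ → Finset ℕ := fun v => V.filter (fun w => idx w = idx v)
    have hP : ∀ v ∈ V, (P v).card ≤ 2 := by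
      intro v hv
      have : (P v).card = ((P v).image e).card := by
        rw [card_image_of_injOn]
        intro a ha b hb h
        exact he_inj a (mem_filter.1 ha).1 b (mem_filter.1 hb).1 h
      rw [this]
      have hsub : (P v).image e ⊆ {2 * (e v / 2), 2 * (e v / 2) + 1} := by
        intro i hi
        obtain ⟨w, hw, rfl⟩ := mem_image.1 hi
        have hw' := mem_filter.1 hw
        have h1 := hidx_val w hw'.1
        have h2 := hidx_val v hv
        have h3 : e w / 2 = e v / 2 := by rw [← h1, ← h2, hw'.2]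
        simp only [mem_insert, mem_singleton]
        omega
      exact (card_le_card hsub).trans (card_le_two)
    have hsub : F.filter (fun A' => ¬ Disjoint (S A) (S A')) ⊆
        A.biUnion (fun v => (P v).biUnion (fun w => F.filter (fun A' => w ∈ A'))) := by
      intro A' hA'
      rw [mem_filter] at hA'
      obtain ⟨hA'F, hnd⟩ := hA'
      rw [not_disjoint_iff] at hnd
      obtain ⟨t, ht1, ht2⟩ := hnd
      obtain ⟨v, hv, rfl⟩ := mem_image.1 ht1
      obtain ⟨w, hw, hwv⟩ := mem_image.1 ht2
      rw [mem_biUnion]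
      refine ⟨v, hv, ?_⟩
      rw [mem_biUnion]
      refine ⟨w, mem_filter.2 ⟨hAV A' hA'F hw, hwv⟩, mem_filter.2 ⟨hA'F, hw⟩⟩
    have hcn : (0 : ℝ) ≤ c ^ n := by positivity
    have h1 : ((F.filter (fun A' => ¬ Disjoint (S A) (S A'))).card : ℝ) ≤
        ∑ v ∈ A, ∑ w ∈ P v, ((F.filter (fun A' => w ∈ A')).card : ℝ) := by
      have h2 := card_le_card hsub
      have h3 := h2.trans card_biUnion_le
      have h4 : ∑ v ∈ A, ((P v).biUnion (fun w => F.filter (fun A' => w ∈ A'))).card ≤
          ∑ v ∈ A, ∑ w ∈ P v, (F.filter (fun A' => w ∈ A')).card :=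
        sum_le_sum (fun v _ => card_biUnion_le)
      exact_mod_cast h3.trans h4
    refine h1.trans ?_
    calc ∑ v ∈ A, ∑ w ∈ P v, ((F.filter (fun A' => w ∈ A')).card : ℝ)
        ≤ ∑ v ∈ A, ∑ w ∈ P v, c ^ n := sum_le_sum fun v _ => sum_le_sum fun w _ => hdeg w
      _ = ∑ v ∈ A, ((P v).card : ℝ) * c ^ n := by simp [sum_const, nsmul_eq_mul]
      _ ≤ ∑ v ∈ A, 2 * c ^ n := by
          refine sum_le_sum fun v hv => ?_
          apply mul_le_mul_of_nonneg_right _ hcn
          exact_mod_cast hP v (hAV A hA hv)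
      _ = 2 * (n : ℝ) * c ^ n := by rw [sum_const, hF A hA, nsmul_eq_mul]; ring
  have hnpos : (1 : ℝ) ≤ n := by exact_mod_cast hn0
  have hcn1 : (1 : ℝ) ≤ c ^ n := one_le_pow₀ hc1.le
  have h4 : 4 * (2 * (1 / 2 : ℝ) ^ n) * (⌊2 * (n : ℝ) * c ^ n⌋₊ : ℕ) ≤ 1 := by
    have hfl : ((⌊2 * (n : ℝ) * c ^ n⌋₊ : ℕ) : ℝ) ≤ 2 * (n : ℝ) * c ^ n :=
      Nat.floor_le (by positivity)
    have hh : (0 : ℝ) ≤ 4 * (2 * (1 / 2 : ℝ) ^ n) := by positivity
    calc 4 * (2 * (1 / 2 : ℝ) ^ n) * (⌊2 * (n : ℝ) * c ^ n⌋₊ : ℕ)
        ≤ 4 * (2 * (1 / 2 : ℝ) ^ n) * (2 * (n : ℝ) * c ^ n) := mul_le_mul_of_nonneg_left hfl hh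
      _ = 16 * ((n : ℝ) * (c / 2) ^ n) := by rw [div_pow, div_pow, one_pow]; ring
      _ ≤ 1 := by linarith
  have hd1 : 1 ≤ ⌊2 * (n : ℝ) * c ^ n⌋₊ := by
    apply Nat.le_floor
    push_cast
    nlinarith
  obtain ⟨ω, hω⟩ := Pool.Agent.Helper635.LLL.lll F B S hdep (2 * (1 / 2) ^ n)
    ⌊2 * (n : ℝ) * c ^ n⌋₊ (by positivity) (fun A hA => by convert hcnt A hA)
    (fun A hA => by convert hdegb A hA) h4 hd1 (by convert (Fintype.card_pos (α := T → Bool)))
  -- the red set
  set R := V.filter (fun v => col ω v = true) with hR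
  have hgood : ∀ A ∈ F, (∃ v ∈ A, col ω v = true) ∧ (∃ v ∈ A, col ω v = false) := by
    intro A hA
    have h := hω A hA
    simp only [B, not_or] at h
    obtain ⟨h1, h2⟩ := h
    push Not at h1 h2
    obtain ⟨v, hv, hv1⟩ := h1
    obtain ⟨w, hw, hw1⟩ := h2
    exact ⟨⟨w, hw, by simpa using hw1⟩, ⟨v, hv, by simpa using hv1⟩⟩
  -- size of the red set
  have hRcard : R.card = ((range m).filter (fun i =>
      (xor (ω (Fin.ofNat (m + 1) (i / 2))) (decide (i % 2 = 0))) = true)).card := by
    rw [← he_img, filter_image, card_image_of_injOn]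
    intro v hv w hw h
    exact he_inj v (mem_filter.1 hv).1 w (mem_filter.1 hw).1 h
  have hRhalf : R.card = m / 2 ∨ (V \ R).card = m / 2 := by
    have hRV : R ⊆ V := filter_subset _ _
    have hsd : (V \ R).card = m - R.card := card_sdiff_of_subset hRV
    rcases Nat.even_or_odd' m with ⟨k, hk | hk⟩
    · left
      have := count_pairs (fun i => ω (Fin.ofNat (m + 1) i)) k
      rw [hRcard]
      rw [show range m = range (2 * k) by rw [hk]]
      rw [this]; omega
    · have h1 := count_pairs (fun i => ω (Fin.ofNat (m + 1) i)) k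
      have h2 : range m = insert (2 * k) (range (2 * k)) := by
        ext i; simp only [mem_insert, mem_range]; omega
      rw [h2, filter_insert] at hRcard
      by_cases hb : (xor (ω (Fin.ofNat (m + 1) (2 * k / 2))) (decide (2 * k % 2 = 0))) = true
      · rw [if_pos hb, card_insert_of_notMem (by simp)] at hRcard
        right
        rw [hsd, hRcard, h1]; omega
      · rw [if_neg hb] at hRcard
        left
        rw [hRcard, h1]; omega
  rcases hRhalf with h | h
  · refine ⟨R, filter_subset _ _, h, ?_⟩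
    intro A hA
    obtain ⟨⟨v, hv, hv1⟩, ⟨w, hw, hw1⟩⟩ := hgood A hA
    refine ⟨⟨v, mem_inter.2 ⟨hv, mem_filter.2 ⟨hAV A hA hv, hv1⟩⟩⟩, fun hsub => ?_⟩
    have := (mem_filter.1 (hsub hw)).2
    rw [hw1] at this
    exact Bool.false_ne_true this
  · refine ⟨V \ R, sdiff_subset, h, ?_⟩
    intro A hA
    obtain ⟨⟨v, hv, hv1⟩, ⟨w, hw, hw1⟩⟩ := hgood A hA
    refine ⟨⟨w, mem_inter.2 ⟨hw, mem_sdiff.2 ⟨hAV A hA hw, fun hwR => ?_⟩⟩⟩, fun hsub => ?_⟩
    · have := (mem_filter.1 hwR).2
      rw [hw1] at this
      exact Bool.false_ne_true this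
    · exact (mem_sdiff.1 (hsub hv)).2 (mem_filter.2 ⟨hAV A hA hv, hv1⟩)

end Pool.Agent.S07181
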