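import Pool.Statements.S08610
import Pool.Agent.W5h2.Kiss.Main

set_option autoImplicit false
open Pool Pool.MP_4b805a_co

namespace Pool.Agent.S08610

/-- The negation of the preceding statement: There is a compact convex plane set of constant positive width such that 8 isometric copies can each touch it with pairwise non-overlapping interiors, none overlapping it, but 9 such copies cannot. -/
theorem result :
    ¬ (∃ K : Set (EuclideanSpace ℝ (Fin 2)), Convex ℝ K ∧ IsCompact K ∧ K.Nonempty ∧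
      (∃ w : ℝ, 0 < w ∧ ∀ u : EuclideanSpace ℝ (Fin 2), ‖u‖ = 1 →
        sSup ((fun x => inner ℝ x u) '' K) - sInf ((fun x => inner ℝ x u) '' K) = w) ∧
      (∃ f : Fin 8 → (EuclideanSpace ℝ (Fin 2) ≃ᵢ EuclideanSpace ℝ (Fin 2)),
        (∀ i, ((f i) '' K ∩ K).Nonempty) ∧
        (∀ i, interior ((f i) '' K) ∩ interior K = ∅) ∧
        (∀ i j, i ≠ j → interior ((f i) '' K) ∩ interior ((f j) '' K) = ∅)) ∧
      ¬ (∃ f : Fin 9 → (EuclideanSpace ℝ (Fin 2) ≃ᵢ EuclideanSpace ℝ (Fin 2)),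
        (∀ i, ((f i) '' K ∩ K).Nonempty) ∧
        (∀ i, interior ((f i) '' K) ∩ interior K = ∅) ∧
        (∀ i j, i ≠ j → interior ((f i) '' K) ∩ interior ((f j) '' K) = ∅))) := by
  rintro ⟨K, h1, h2, h3, ⟨w, hw, hwidth⟩, ⟨f, f1, f2, f3⟩, -⟩
  have hK : Pool.Agent.W5h2.Kiss.CW K w := Pool.Agent.W5h2.Kiss.cw_of h1 h2 h3 hw hwidth
  exact Pool.Agent.W5h2.Kiss.no_eight hK (fun i => (f i) '' K) (fun i => hK.image (f i)) f1 f2 f3

end Pool.Agent.S08610
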