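import Pool.Statements.S09874
import Mathlib

set_option autoImplicit false
open Pool Pool.MP_85fffe_co

namespace Pool.Agent.S09874

open Finset

/-- the translation vectors, as integers -/
def tau (k i : ℕ) : ℤ := if i = 1 then 0 else ((k : ℤ) + 1) * (2 * i + 1)

/-- the point set -/
noncomputable def X (k : ℕ) : Finset ℝ :=
  (((range (k + 1)) ×ˢ (Icc 1 k)).filter (fun p => p.1 ≠ p.2)).image
    (fun p => (((p.1 : ℤ) + tau k p.2 : ℤ) : ℝ))

/-- the patterns -/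
noncomputable def A (k : ℕ) (I : Finset ℕ) : Finset ℝ :=
  ((range (k + 1)) \ (insert 1 I)).image (fun a => (((a : ℕ) : ℤ) : ℝ))

theorem mem_X {k : ℕ} {x : ℝ} : x ∈ X k ↔ ∃ a i : ℕ, a ≤ k ∧ 1 ≤ i ∧ i ≤ k ∧ a ≠ i ∧
    x = (((a : ℤ) + tau k i : ℤ) : ℝ) := by
  unfold X
  simp only [mem_image, mem_filter, mem_product, mem_range, mem_Icc, Prod.exists]
  constructor
  · rintro ⟨a, i, ⟨⟨h1, h2, h3⟩, h4⟩, h5⟩
    exact ⟨a, i, by omega, h2, h3, h4, h5.symm⟩
  · rintro ⟨a, i, h1, h2, h3, h4, h5⟩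
    exact ⟨a, i, ⟨⟨by omega, h2, h3⟩, h4⟩, h5.symm⟩

theorem mem_A {k : ℕ} {I : Finset ℕ} {x : ℝ} : x ∈ A k I ↔ ∃ a : ℕ, a ≤ k ∧ a ≠ 1 ∧ a ∉ I ∧
    x = ((a : ℤ) : ℝ) := by
  unfold A
  simp only [mem_image, mem_sdiff, mem_range, mem_insert, not_or]
  constructor
  · rintro ⟨a, ⟨h1, h2, h3⟩, h5⟩
    exact ⟨a, by omega, h2, h3, h5.symm⟩
  · rintro ⟨a, h1, h2, h3, h5⟩
    exact ⟨a, ⟨by omega, h2, h3⟩, h5.symm⟩

theorem card_X (k : ℕ) : (X k).card ≤ (k + 1) * k := by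
  unfold X
  refine card_image_le.trans ((card_filter_le _ _).trans ?_)
  simp

/-- the key arithmetic fact -/
theorem key {k i j j' a a' : ℕ} (ha : a ≤ k) (ha' : a' ≤ k) (hi : 2 ≤ i) (hj : 1 ≤ j)
    (h : (a : ℤ) + tau k j + tau k i = (a' : ℤ) + tau k j') :
    j = 1 ∧ j' = i ∧ a' = a := by
  have hi1 : i ≠ 1 := by omega
  simp only [tau, hi1, if_false] at h
  by_cases h1 : j = 1
  · rw [if_pos h1] at h
    by_cases h2 : j' = 1
    · rw [if_pos h2] at h
      exfalso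
      nlinarith
    · rw [if_neg h2] at h
      have h3 : j' = i := by
        by_contra hne
        rcases lt_or_gt_of_ne hne with h4 | h4
        · have h5 : (j' : ℤ) + 1 ≤ i := by exact_mod_cast h4
          nlinarith
        · have h5 : (i : ℤ) + 1 ≤ j' := by exact_mod_cast h4
          nlinarith
      subst h3
      refine ⟨h1, rfl, ?_⟩
      have : (a : ℤ) = a' := by linarith
      exact_mod_cast this.symm
  · exfalso
    rw [if_neg h1] at h
    by_cases h2 : j' = 1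
    · rw [if_pos h2] at h
      nlinarith
    · rw [if_neg h2] at h
      -- (k+1) * (2*(i+j-j') + 1) = a' - a
      have h3 : ((k : ℤ) + 1) * (2 * ((i : ℤ) + j - j') + 1) = (a' : ℤ) - a := by linarith
      have h6 : (a' : ℤ) ≤ k := by exact_mod_cast ha'
      have h7 : (a : ℤ) ≤ k := by exact_mod_cast ha
      rcases lt_or_ge ((i : ℤ) + j - j') 0 with h4 | h4
      · have : (2 * ((i : ℤ) + j - j') + 1) ≤ -1 := by omega
        nlinarith
      · have : 1 ≤ (2 * ((i : ℤ) + j - j') + 1) := by omega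
        nlinarith

theorem A_subset (k : ℕ) (hk : 1 ≤ k) (I : Finset ℕ) : A k I ⊆ X k := by
  intro x hx
  obtain ⟨a, h1, h2, h3, rfl⟩ := mem_A.1 hx
  exact mem_X.2 ⟨a, 1, h1, le_refl _, hk, h2, by simp [tau]⟩

theorem A_translate (k : ℕ) (I : Finset ℕ) (i : ℕ) (hi : 2 ≤ i) (hik : i ≤ k) (hI : i ∈ I) :
    (A k I).image (· + ((tau k i : ℤ) : ℝ)) ⊆ X k := by
  intro x hx
  obtain ⟨y, hy, rfl⟩ := mem_image.1 hx
  obtain ⟨a, h1, h2, h3, rfl⟩ := mem_A.1 hy
  refine mem_X.2 ⟨a, i, h1, by omega, hik, ?_, by push_cast; ring⟩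
  rintro rfl
  exact h3 hI

theorem tau_ne {k i : ℕ} (hi : 2 ≤ i) : tau k i ≠ 0 := by
  have : i ≠ 1 := by omega
  simp only [tau, this, if_false]
  positivity

theorem maximal (k : ℕ) (hk : 1 ≤ k) (I : Finset ℕ) (hI : I ⊆ Icc 2 k) (hne : I.Nonempty)
    (B : Finset ℝ) (hB : A k I ⊂ B) :
    ¬ (∀ t : ℝ, (A k I).image (· + t) ⊆ X k → B.image (· + t) ⊆ X k) := by
  intro h
  obtain ⟨b, hb, hbA⟩ := Finset.exists_of_ssubset hB
  have h0 : b ∈ X k := by
    have := h 0 (by simpa using A_subset k hk I)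
    simp only [add_zero, image_id'] at this
    exact this hb
  obtain ⟨a, j, h1, h2, h3, h4, h5⟩ := mem_X.1 h0
  have hall : ∀ i ∈ I, j = 1 ∧ a ≠ i := by
    intro i hi
    have hi2 := mem_Icc.1 (hI hi)
    have ht := h _ (A_translate k I i hi2.1 hi2.2 hi)
    have hbi : b + ((tau k i : ℤ) : ℝ) ∈ X k := ht (mem_image.2 ⟨b, hb, rfl⟩)
    obtain ⟨a', j', g1, g2, g3, g4, g5⟩ := mem_X.1 hbi
    rw [h5] at g5
    have g6 : (a : ℤ) + tau k j + tau k i = (a' : ℤ) + tau k j' := by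
      exact_mod_cast g5
    obtain ⟨e1, e2, e3⟩ := key h1 g1 hi2.1 h2 g6
    refine ⟨e1, ?_⟩
    rw [← e2, ← e3]; exact g4
  obtain ⟨i, hi⟩ := hne
  have hj : j = 1 := (hall i hi).1
  apply hbA
  refine mem_A.2 ⟨a, h1, by rw [← hj]; exact h4, fun ha => (hall a ha).2 rfl, ?_⟩
  rw [h5, hj]; simp [tau]

theorem A_inj {k : ℕ} {I J : Finset ℕ} (hI : I ⊆ Icc 2 k) (hJ : J ⊆ Icc 2 k)
    (h : A k I = A k J) : I = J := by
  have aux : ∀ {I J : Finset ℕ}, I ⊆ Icc 2 k → J ⊆ Icc 2 k → A k I = A k J → I ⊆ J := by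
    intro I J hI hJ h x hx
    by_contra hxJ
    have hx2 := mem_Icc.1 (hI hx)
    have : ((x : ℤ) : ℝ) ∈ A k J := mem_A.2 ⟨x, hx2.2, by omega, hxJ, rfl⟩
    rw [← h] at this
    obtain ⟨a, h1, h2, h3, h4⟩ := mem_A.1 this
    have : x = a := by exact_mod_cast h4
    exact h3 (this ▸ hx)
  exact Subset.antisymm (aux hI hJ h) (aux hJ hI h.symm)

theorem growth (C : ℕ) : (C + 3) * ((C + 13) * (C + 12)) + 1 < 2 ^ (C + 11) := by
  induction C with
  | zero => norm_num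
  | succ n ih =>
    have : 2 ^ (n + 1 + 11) = 2 * 2 ^ (n + 11) := by ring
    rw [this]
    have h1 : (n + 4) * (n + 14) ≤ 2 * ((n + 3) * (n + 12)) := by nlinarith
    have h2 := Nat.mul_le_mul_right (n + 13) h1
    have h3 : (n + 1 + 3) * ((n + 1 + 13) * (n + 1 + 12)) = (n + 4) * (n + 14) * (n + 13) := by ring
    have h4 : 2 * ((n + 3) * (n + 12)) * (n + 13) = 2 * ((n + 3) * ((n + 13) * (n + 12))) := by ring
    rw [h3]
    rw [h4] at h2
    omega

/-- The negation of the preceding statement: There is a constant C such that for every finite set X of n reals, any family of maximally repeated patterns of X, no two of which are translates of each other, has at most C·n members. -/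
theorem result :
    ¬ (∃ C : ℕ, ∀ X : Finset ℝ, ∀ S : Finset (Finset ℝ),
      (∀ A ∈ S,
        A.Nonempty ∧ A ⊆ X ∧
        (∃ t : ℝ, t ≠ 0 ∧ A.image (· + t) ⊆ X) ∧
        (∀ B : Finset ℝ, A ⊂ B →
          ¬ (∀ t : ℝ, A.image (· + t) ⊆ X → B.image (· + t) ⊆ X))) →
      (∀ A ∈ S, ∀ B ∈ S, ∀ t : ℝ, B = A.image (· + t) → A = B) →
      S.card ≤ C * X.card) := by
  classical
  rintro ⟨C, hC⟩
  set k := C + 12 with hk
  have hk1 : 1 ≤ k := by omega
  set P := (Icc 2 k).powerset.erase ∅ with hP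
  have hPm : ∀ I ∈ P, I ⊆ Icc 2 k ∧ I.Nonempty := by
    intro I hI
    rw [hP, mem_erase, mem_powerset] at hI
    exact ⟨hI.2, nonempty_iff_ne_empty.2 hI.1⟩
  have h := hC (X k) (P.image (A k)) ?_ ?_
  · have hcard : (P.image (A k)).card = 2 ^ (C + 11) - 1 := by
      rw [card_image_of_injOn]
      · rw [hP, card_erase_of_mem (by simp), card_powerset]
        congr 2
        simp [hk]
      · intro I hI J hJ hIJ
        exact A_inj (hPm I hI).1 (hPm J hJ).1 hIJ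
    rw [hcard] at h
    have h2 := card_X k
    have h3 := growth C
    have h4 : C * (X k).card ≤ C * ((k + 1) * k) := Nat.mul_le_mul_left _ h2
    have h5 : C * ((k + 1) * k) ≤ (C + 3) * ((C + 13) * (C + 12)) := by
      rw [hk]
      exact Nat.mul_le_mul (by omega) (le_refl _)
    omega
  · intro B hB
    obtain ⟨I, hI, rfl⟩ := mem_image.1 hB
    obtain ⟨hI1, hI2⟩ := hPm I hI
    refine ⟨⟨0, mem_A.2 ⟨0, by omega, by omega, fun h0 => ?_, by simp⟩⟩, A_subset k hk1 I, ?_,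
      fun B hB => maximal k hk1 I hI1 hI2 B hB⟩
    · have := mem_Icc.1 (hI1 h0)
      omega
    · obtain ⟨i, hi⟩ := hI2
      have hi2 := mem_Icc.1 (hI1 hi)
      refine ⟨((tau k i : ℤ) : ℝ), ?_, A_translate k I i hi2.1 hi2.2 hi⟩
      exact_mod_cast tau_ne hi2.1
  · intro B hB B' hB' t ht
    obtain ⟨I, hI, rfl⟩ := mem_image.1 hB
    obtain ⟨J, hJ, rfl⟩ := mem_image.1 hB'
    have z : ∀ I ∈ P, (0 : ℝ) ∈ A k I := by
      intro I hI
      refine mem_A.2 ⟨0, by omega, by omega, fun h0 => ?_, by simp⟩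
      have := mem_Icc.1 ((hPm I hI).1 h0)
      omega
    have pos : ∀ I, ∀ x ∈ A k I, (0 : ℝ) ≤ x := by
      intro I x hx
      obtain ⟨a, _, _, _, rfl⟩ := mem_A.1 hx
      positivity
    have t1 : 0 ≤ t := by
      have : t ∈ A k J := by
        rw [ht]
        exact mem_image.2 ⟨0, z I hI, by simp⟩
      exact pos _ _ this
    have t2 : t ≤ 0 := by
      have := z J hJ
      rw [ht] at this
      obtain ⟨x, hx, hx2⟩ := mem_image.1 this
      have := pos _ _ hx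
      linarith
    have t0 : t = 0 := le_antisymm t2 t1
    rw [ht, t0]
    simp

end Pool.Agent.S09874
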