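-- Proof of frozen statement S11885.
import Pool.Statements.S11885

set_option autoImplicit false
open Classical
open Pool Pool.MP_dd5ef2_co

namespace Pool.Agent.S11885

/-- indicator that the triple `i, j, k` spans an even number of edges of `G`
(with the convention that a vertex is not adjacent to itself) -/
noncomputable def ev {n : ℕ} (G : SimpleGraph (Fin n)) (i j k : Fin n) : ℝ :=
  if decide (G.Adj i j) = xor (decide (G.Adj k i)) (decide (G.Adj k j)) then 1 else 0

lemma ev_nonneg {n : ℕ} (G : SimpleGraph (Fin n)) (i j k : Fin n) : 0 ≤ ev G i j k := by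
  unfold ev; split_ifs <;> norm_num

lemma ev_le_one {n : ℕ} (G : SimpleGraph (Fin n)) (i j k : Fin n) : ev G i j k ≤ 1 := by
  unfold ev; split_ifs <;> norm_num

lemma ev_eq_one {n : ℕ} (G : SimpleGraph (Fin n)) (i j k : Fin n)
    (h : Even ((if G.Adj i j then 1 else 0) + (if G.Adj i k then 1 else 0)
                  + (if G.Adj j k then 1 else 0) : ℕ)) : ev G i j k = 1 := by
  unfold ev
  rw [G.adj_comm k i, G.adj_comm k j]
  by_cases h1 : G.Adj i j <;> by_cases h2 : G.Adj i k <;> by_cases h3 : G.Adj j k <;>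
    simp_all (config := {decide := true})

lemma ev_left {n : ℕ} (G : SimpleGraph (Fin n)) (i j : Fin n) : ev G i j i = 1 := by
  unfold ev
  simp

lemma ev_right {n : ℕ} (G : SimpleGraph (Fin n)) (i j : Fin n) : ev G i j j = 1 := by
  unfold ev
  rw [G.adj_comm j i]
  simp

/-- comparison of the fraction in the statement with the fraction over all vertices -/
lemma frac_le {n : ℕ} (hn : 3 ≤ n) (G : SimpleGraph (Fin n)) (i j : Fin n) (hij : i ≠ j) :
    (((Finset.univ.filter (fun k : Fin n => k ≠ i ∧ k ≠ j ∧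
                Even ((if G.Adj i j then 1 else 0) + (if G.Adj i k then 1 else 0)
                  + (if G.Adj j k then 1 else 0) : ℕ))).card : ℝ) / ((n : ℝ) - 2)) ≤
      (∑ k, ev G i j k) / n := by
  set S := (Finset.univ.filter (fun k : Fin n => k ≠ i ∧ k ≠ j ∧
                Even ((if G.Adj i j then 1 else 0) + (if G.Adj i k then 1 else 0)
                  + (if G.Adj j k then 1 else 0) : ℕ))) with hS
  have hi : i ∉ S := by simp [hS]
  have hj : j ∉ insert i S := by
    simp only [Finset.mem_insert, not_or]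
    exact ⟨hij.symm, by simp [hS]⟩
  have h1 : ((insert j (insert i S)).card : ℝ) ≤ ∑ k, ev G i j k := by
    calc ((insert j (insert i S)).card : ℝ) = ∑ k ∈ insert j (insert i S), (1 : ℝ) := by simp
      _ = ∑ k ∈ insert j (insert i S), ev G i j k := by
          refine Finset.sum_congr rfl fun k hk => ?_
          rw [Finset.mem_insert, Finset.mem_insert] at hk
          rcases hk with rfl | rfl | hk
          · exact (ev_right G i k).symm
          · exact (ev_left G k j).symm
          · rw [hS, Finset.mem_filter] at hk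
            exact (ev_eq_one G i j k hk.2.2.2).symm
      _ ≤ ∑ k, ev G i j k :=
          Finset.sum_le_sum_of_subset_of_nonneg (Finset.subset_univ _)
            (fun k _ _ => ev_nonneg G i j k)
  rw [Finset.card_insert_of_notMem hj, Finset.card_insert_of_notMem hi] at h1
  have h2 : (insert j (insert i S)).card ≤ n := by
    simpa using Finset.card_le_univ (insert j (insert i S))
  rw [Finset.card_insert_of_notMem hj, Finset.card_insert_of_notMem hi] at h2
  have h2' : (S.card : ℝ) + 1 + 1 ≤ n := by exact_mod_cast h2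
  have hn' : (3 : ℝ) ≤ n := by exact_mod_cast hn
  push_cast at h1
  rw [div_le_div_iff₀ (by linarith) (by linarith)]
  nlinarith

/-- second moment of a sum of independent centred variables, as a sum over all tuples -/
lemma second_moment {n : ℕ} (g : Fin n → ℝ) (h0 : ∑ k, g k = 0) (h1 : ∀ k, g k ^ 2 ≤ 1) (m : ℕ) :
    ∑ K : Fin m → Fin n, (∑ t, g (K t)) ^ 2 ≤ m * (n : ℝ) ^ m := by
  induction m with
  | zero => simp
  | succ m ih =>
    have hsq : ∑ k, g k ^ 2 ≤ n := by
      calc ∑ k, g k ^ 2 ≤ ∑ _k : Fin n, (1 : ℝ) := Finset.sum_le_sum fun k _ => h1 k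
        _ = n := by simp
    rw [← (Fin.consEquiv (fun _ : Fin (m + 1) => Fin n)).sum_comp, Fintype.sum_prod_type]
    have hstep : ∀ K : Fin m → Fin n,
        ∑ k : Fin n, (∑ t, g ((Fin.consEquiv (fun _ : Fin (m + 1) => Fin n)) (k, K) t)) ^ 2
          = (∑ k, g k ^ 2) + n * (∑ t, g (K t)) ^ 2 := by
      intro K
      have : ∀ k : Fin n, (∑ t, g ((Fin.consEquiv (fun _ : Fin (m + 1) => Fin n)) (k, K) t)) ^ 2
          = g k ^ 2 + 2 * (∑ t, g (K t)) * g k + (∑ t, g (K t)) ^ 2 := by
        intro k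
        rw [Fin.sum_univ_succ]
        simp only [Fin.consEquiv_apply, Fin.cons_zero, Fin.cons_succ]
        ring
      rw [Finset.sum_congr rfl fun k _ => this k, Finset.sum_add_distrib, Finset.sum_add_distrib,
        ← Finset.mul_sum, h0]
      simp
    rw [Finset.sum_comm, Finset.sum_congr rfl fun K _ => hstep K, Finset.sum_add_distrib,
      ← Finset.mul_sum]
    simp only [Finset.sum_const, Finset.card_univ, Fintype.card_pi, Finset.prod_const,
      Fintype.card_fin, nsmul_eq_mul, Nat.cast_pow]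
    have hnn : (0 : ℝ) ≤ (n : ℝ) ^ m := by positivity
    have hn : (0 : ℝ) ≤ n := by positivity
    calc (n : ℝ) ^ m * ∑ k, g k ^ 2 + n * ∑ K : Fin m → Fin n, (∑ t, g (K t)) ^ 2
        ≤ (n : ℝ) ^ m * n + n * (m * (n : ℝ) ^ m) :=
          add_le_add (mul_le_mul_of_nonneg_left hsq hnn) (mul_le_mul_of_nonneg_left ih hn)
      _ = ((m + 1 : ℕ) : ℝ) * (n : ℝ) ^ (m + 1) := by push_cast; ring

/-- the fraction over all vertices -/
noncomputable def ph {n : ℕ} (G : SimpleGraph (Fin n)) (i j : Fin n) : ℝ :=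
  (∑ k, ev G i j k) / n

/-- the sampled fraction -/
noncomputable def ps {n m : ℕ} (G : SimpleGraph (Fin n)) (K : Fin m → Fin n) (i j : Fin n) : ℝ :=
  (∑ t, ev G i j (K t)) / m

lemma ph_nonneg {n : ℕ} (G : SimpleGraph (Fin n)) (i j : Fin n) : 0 ≤ ph G i j :=
  div_nonneg (Finset.sum_nonneg fun k _ => ev_nonneg G i j k) (by positivity)

lemma ps_nonneg {n m : ℕ} (G : SimpleGraph (Fin n)) (K : Fin m → Fin n) (i j : Fin n) :
    0 ≤ ps G K i j :=
  div_nonneg (Finset.sum_nonneg fun k _ => ev_nonneg G i j _) (by positivity)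

lemma ph_le_one {n : ℕ} (hn : 0 < n) (G : SimpleGraph (Fin n)) (i j : Fin n) : ph G i j ≤ 1 := by
  unfold ph
  have hn' : (0 : ℝ) < n := by exact_mod_cast hn
  rw [div_le_one hn']
  calc ∑ k, ev G i j k ≤ ∑ _k : Fin n, (1 : ℝ) := Finset.sum_le_sum fun k _ => ev_le_one G i j k
    _ = n := by simp

lemma approx {n : ℕ} (hn : 0 < n) (G : SimpleGraph (Fin n)) (i j : Fin n) {ε : ℝ} (hε : 0 < ε)
    {r : ℕ} (hr : 0 < r) :
    ∑ K : Fin (r ^ 2) → Fin n, (Real.log (ph G i j + ε) - Real.log (ps G K i j + ε)) ≤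
      (n : ℝ) ^ (r ^ 2) * (1 / (ε * r)) := by
  have hn' : (0 : ℝ) < n := by exact_mod_cast hn
  have hr' : (0 : ℝ) < r := by exact_mod_cast hr
  set p := ph G i j with hp
  have hp0 : 0 ≤ p := ph_nonneg G i j
  have hp1 : p ≤ 1 := ph_le_one hn G i j
  have hsum : ∑ k, (ev G i j k - p) = 0 := by
    rw [Finset.sum_sub_distrib]
    simp only [Finset.sum_const, Finset.card_univ, Fintype.card_fin, nsmul_eq_mul]
    rw [hp, ph]
    field_simp
    simp
  have hsq : ∀ k, (ev G i j k - p) ^ 2 ≤ 1 := by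
    intro k
    have h1 := ev_nonneg G i j k
    have h2 := ev_le_one G i j k
    nlinarith
  have hsm := second_moment (fun k => ev G i j k - p) hsum hsq (r ^ 2)
  have hterm : ∀ K : Fin (r ^ 2) → Fin n,
      Real.log (p + ε) - Real.log (ps G K i j + ε) ≤
        (1 / ε) * (1 / (2 * r) + (r / 2) * ((∑ t, (ev G i j (K t) - p)) ^ 2 / (r : ℝ) ^ 4)) := by
    intro K
    have hq0 : 0 ≤ ps G K i j := ps_nonneg G K i j
    set q := ps G K i j with hq
    have hq' : ∑ t, (ev G i j (K t) - p) = (q - p) * (r : ℝ) ^ 2 := by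
      rw [Finset.sum_sub_distrib]
      simp only [Finset.sum_const, Finset.card_univ, Fintype.card_fin, nsmul_eq_mul]
      rw [hq, ps]
      push_cast
      field_simp
    rw [hq']
    have e1 : ((q - p) * (r : ℝ) ^ 2) ^ 2 / (r : ℝ) ^ 4 = (q - p) ^ 2 := by
      field_simp
    rw [e1, ← Real.log_div (by linarith) (by linarith)]
    have hlog := Real.log_le_sub_one_of_pos (show 0 < (p + ε) / (q + ε) by positivity)
    have e2 : (p + ε) / (q + ε) - 1 = (p - q) / (q + ε) := by
      field_simp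
      ring
    have e3 : (p - q) / (q + ε) ≤ |p - q| / ε := by
      calc (p - q) / (q + ε) ≤ |p - q| / (q + ε) := by
            gcongr
            exact le_abs_self _
        _ ≤ |p - q| / ε := by
            gcongr
            linarith
    have e4 : |p - q| ≤ 1 / (2 * r) + (r / 2) * (q - p) ^ 2 := by
      have h := sq_nonneg (r * |p - q| - 1)
      have h5 : |p - q| ^ 2 = (q - p) ^ 2 := by rw [sq_abs]; ring
      have h6 : 2 * r * |p - q| ≤ 1 + r ^ 2 * (q - p) ^ 2 := by
        rw [← h5]; nlinarith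
      have h7 : 1 / (2 * (r : ℝ)) + (r / 2) * (q - p) ^ 2 = (1 + r ^ 2 * (q - p) ^ 2) / (2 * r) := by
        field_simp
      rw [h7, le_div_iff₀ (by positivity)]
      linarith
    calc Real.log ((p + ε) / (q + ε)) ≤ |p - q| / ε := by linarith
      _ = (1 / ε) * |p - q| := by ring
      _ ≤ (1 / ε) * (1 / (2 * r) + (r / 2) * (q - p) ^ 2) := by
          gcongr
  calc ∑ K : Fin (r ^ 2) → Fin n, (Real.log (p + ε) - Real.log (ps G K i j + ε))
      ≤ ∑ K : Fin (r ^ 2) → Fin n,
        (1 / ε) * (1 / (2 * r) + (r / 2) * ((∑ t, (ev G i j (K t) - p)) ^ 2 / (r : ℝ) ^ 4)) :=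
        Finset.sum_le_sum fun K _ => hterm K
    _ = (1 / ε) * ((n : ℝ) ^ (r ^ 2) * (1 / (2 * r)) + (r / 2) / (r : ℝ) ^ 4 *
          ∑ K : Fin (r ^ 2) → Fin n, (∑ t, (ev G i j (K t) - p)) ^ 2) := by
        rw [← Finset.mul_sum, Finset.sum_add_distrib]
        simp only [Finset.sum_const, Finset.card_univ, Fintype.card_pi, Finset.prod_const,
          Fintype.card_fin, nsmul_eq_mul, Nat.cast_pow]
        rw [← Finset.mul_sum, ← Finset.sum_div]
        ring
    _ ≤ (1 / ε) * ((n : ℝ) ^ (r ^ 2) * (1 / (2 * r)) + (r / 2) / (r : ℝ) ^ 4 *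
          (((r ^ 2 : ℕ) : ℝ) * (n : ℝ) ^ (r ^ 2))) := by
        gcongr
    _ = (n : ℝ) ^ (r ^ 2) * (1 / (ε * r)) := by
        push_cast
        field_simp
        norm_num

/-- product over pairs `i < j` -/
noncomputable def pp {n : ℕ} (f : Fin n → Fin n → ℝ) : ℝ :=
  ∏ i : Fin n, ∏ j : Fin n, (if i < j then f i j else 1)

lemma pp_nonneg {n : ℕ} (f : Fin n → Fin n → ℝ) (hf : ∀ i j, 0 ≤ f i j) : 0 ≤ pp f := by
  refine Finset.prod_nonneg fun i _ => Finset.prod_nonneg fun j _ => ?_
  split_ifs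
  · exact hf i j
  · norm_num

lemma pp_le {n : ℕ} (f g : Fin n → Fin n → ℝ) (hf : ∀ i j, 0 ≤ f i j)
    (hfg : ∀ i j, i < j → f i j ≤ g i j) : pp f ≤ pp g := by
  refine Finset.prod_le_prod (fun i _ => Finset.prod_nonneg fun j _ => ?_) fun i _ =>
    Finset.prod_le_prod (fun j _ => ?_) fun j _ => ?_
  · split_ifs
    · exact hf i j
    · norm_num
  · split_ifs
    · exact hf i j
    · norm_num
  · split_ifs with h
    · exact hfg i j h
    · exact le_refl _

lemma exists_good {n : ℕ} (hn : 0 < n) (G : SimpleGraph (Fin n)) {ε : ℝ} (hε : 0 < ε)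
    {r : ℕ} (hr : 0 < r) :
    ∃ K : Fin (r ^ 2) → Fin n, pp (fun i j => ph G i j + ε) ≤
      Real.exp ((n : ℝ) ^ 2 * (1 / (ε * r))) * pp (fun i j => ps G K i j + ε) := by
  have hn' : (0 : ℝ) < n := by exact_mod_cast hn
  have hr' : (0 : ℝ) < r := by exact_mod_cast hr
  set D : (Fin (r ^ 2) → Fin n) → ℝ := fun K => ∑ i : Fin n, ∑ j : Fin n,
    (if i < j then Real.log (ph G i j + ε) - Real.log (ps G K i j + ε) else 0) with hD
  have hsum : ∑ K, D K ≤ ∑ K : Fin (r ^ 2) → Fin n, (n : ℝ) ^ 2 * (1 / (ε * r)) := by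
    have h1 : ∑ K, D K = ∑ i : Fin n, ∑ j : Fin n, ∑ K : Fin (r ^ 2) → Fin n,
        (if i < j then Real.log (ph G i j + ε) - Real.log (ps G K i j + ε) else 0) := by
      rw [hD, Finset.sum_comm]
      refine Finset.sum_congr rfl fun i _ => ?_
      rw [Finset.sum_comm]
    rw [h1]
    calc ∑ i : Fin n, ∑ j : Fin n, ∑ K : Fin (r ^ 2) → Fin n,
        (if i < j then Real.log (ph G i j + ε) - Real.log (ps G K i j + ε) else 0)
        ≤ ∑ i : Fin n, ∑ j : Fin n, (n : ℝ) ^ (r ^ 2) * (1 / (ε * r)) := by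
          refine Finset.sum_le_sum fun i _ => Finset.sum_le_sum fun j _ => ?_
          split_ifs with h
          · exact approx hn G i j hε hr
          · simp only [Finset.sum_const_zero]
            positivity
      _ = ∑ K : Fin (r ^ 2) → Fin n, (n : ℝ) ^ 2 * (1 / (ε * r)) := by
          simp only [Finset.sum_const, Finset.card_univ, Fintype.card_pi, Finset.prod_const,
            Fintype.card_fin, nsmul_eq_mul, Nat.cast_pow]
          ring
  have : Nonempty (Fin n) := ⟨⟨0, hn⟩⟩
  obtain ⟨K, -, hK⟩ := Finset.exists_le_of_sum_le Finset.univ_nonempty hsum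
  refine ⟨K, ?_⟩
  have hexp : pp (fun i j => ph G i j + ε) = Real.exp (D K) * pp (fun i j => ps G K i j + ε) := by
    rw [hD, Real.exp_sum, pp, pp, ← Finset.prod_mul_distrib]
    refine Finset.prod_congr rfl fun i _ => ?_
    rw [Real.exp_sum, ← Finset.prod_mul_distrib]
    refine Finset.prod_congr rfl fun j _ => ?_
    have h1 : 0 < ph G i j + ε := by have := ph_nonneg G i j; linarith
    have h2 : 0 < ps G K i j + ε := by have := ps_nonneg G K i j; linarith
    split_ifs with h
    · rw [Real.exp_sub, Real.exp_log h1, Real.exp_log h2]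
      field_simp
    · simp
  rw [hexp]
  refine mul_le_mul_of_nonneg_right (Real.exp_le_exp.2 hK) (pp_nonneg _ fun i j => ?_)
  have := ps_nonneg G K i j
  linarith

/-- the sum over graphs of a product over pairs of a function of the adjacency bit -/
lemma sum_graph_le {n : ℕ} (F : Fin n → Fin n → Bool → ℝ) (hF : ∀ i j b, 0 ≤ F i j b) :
    ∑ G : SimpleGraph (Fin n), pp (fun i j => F i j (decide (G.Adj i j))) ≤
      pp (fun i j => F i j true + F i j false) := by
  set H : Fin n → Fin n → Bool → ℝ := fun i j b =>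
    if i < j then F i j b else (if b = false then 1 else 0) with hH
  have hH0 : ∀ i j b, 0 ≤ H i j b := by
    intro i j b
    simp only [hH]
    split_ifs
    · exact hF i j b
    · norm_num
    · norm_num
  have h1 : pp (fun i j => F i j true + F i j false) =
      ∑ g : Fin n → Fin n → Bool, ∏ i, ∏ j, H i j (g i j) := by
    have h2 : ∑ g : Fin n → Fin n → Bool, ∏ i, ∏ j, H i j (g i j) =
        ∏ i, ∑ g : Fin n → Bool, ∏ j, H i j (g j) := by
      rw [Fintype.prod_sum]
    rw [h2, pp]
    refine Finset.prod_congr rfl fun i _ => ?_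
    rw [← Fintype.prod_sum]
    refine Finset.prod_congr rfl fun j _ => ?_
    rw [Fintype.sum_bool]
    by_cases h : i < j
    · simp [hH, h]
    · simp [hH, h]
  rw [h1]
  set gG : SimpleGraph (Fin n) → (Fin n → Fin n → Bool) := fun G i j =>
    decide (i < j) && decide (G.Adj i j) with hgG
  have hinj : Function.Injective gG := by
    intro G G' h
    ext i j
    have key : ∀ a b : Fin n, a < b → (G.Adj a b ↔ G'.Adj a b) := by
      intro a b hab
      have := congrFun (congrFun h a) b
      simp only [hgG, hab, decide_true, Bool.true_and] at this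
      simpa using this
    rcases lt_trichotomy i j with hij | hij | hij
    · exact key i j hij
    · subst hij; simp
    · rw [G.adj_comm, G'.adj_comm]
      exact key j i hij
  calc ∑ G : SimpleGraph (Fin n), pp (fun i j => F i j (decide (G.Adj i j)))
      = ∑ G : SimpleGraph (Fin n), ∏ i, ∏ j, H i j (gG G i j) := by
        refine Finset.sum_congr rfl fun G _ => ?_
        rw [pp]
        refine Finset.prod_congr rfl fun i _ => Finset.prod_congr rfl fun j _ => ?_
        simp only [hH, hgG]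
        by_cases h : i < j
        · simp [h]
        · simp [h]
    _ = ∑ g ∈ Finset.univ.image gG, ∏ i, ∏ j, H i j (g i j) := by
        rw [Finset.sum_image fun a _ b _ h => hinj h]
    _ ≤ ∑ g : Fin n → Fin n → Bool, ∏ i, ∏ j, H i j (g i j) :=
        Finset.sum_le_sum_of_subset_of_nonneg (Finset.subset_univ _) fun g _ _ =>
          Finset.prod_nonneg fun i _ => Finset.prod_nonneg fun j _ => hH0 i j _

/-- for a fixed sample `K` the sum over all graphs is small -/
lemma sum_fixed {n m : ℕ} (hm : 0 < m) (K : Fin m → Fin n) {ε : ℝ} (hε : 0 < ε) :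
    ∑ G : SimpleGraph (Fin n), pp (fun i j => ps G K i j + ε) ≤
      ((2 : ℝ) ^ m) ^ n * Real.exp (2 * ε * (n : ℝ) ^ 2) := by
  set F : (Fin n → Fin m → Bool) → Fin n → Fin n → Bool → ℝ := fun τ i j b =>
    (∑ t : Fin m, (if b = xor (τ i t) (τ j t) then (1 : ℝ) else 0)) / m + ε with hF
  have hF0 : ∀ τ i j b, 0 ≤ F τ i j b := by
    intro τ i j b
    have : (0 : ℝ) ≤ (∑ t : Fin m, (if b = xor (τ i t) (τ j t) then (1 : ℝ) else 0)) / m := by
      refine div_nonneg (Finset.sum_nonneg fun t _ => ?_) (by positivity)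
      split_ifs <;> norm_num
    simp only [hF]
    linarith
  have hm' : (0 : ℝ) < m := by exact_mod_cast hm
  have hFs : ∀ τ i j, F τ i j true + F τ i j false = 1 + 2 * ε := by
    intro τ i j
    have h : ∀ t : Fin m, (if true = xor (τ i t) (τ j t) then (1 : ℝ) else 0) +
        (if false = xor (τ i t) (τ j t) then (1 : ℝ) else 0) = 1 := by
      intro t
      cases xor (τ i t) (τ j t) <;> simp
    simp only [hF]
    have h2 : (∑ t : Fin m, (if true = xor (τ i t) (τ j t) then (1 : ℝ) else 0)) +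
        (∑ t : Fin m, (if false = xor (τ i t) (τ j t) then (1 : ℝ) else 0)) = m := by
      rw [← Finset.sum_add_distrib, Finset.sum_congr rfl fun t _ => h t]
      simp
    field_simp
    linarith
  have hfix : ∀ τ, ∑ G : SimpleGraph (Fin n), pp (fun i j => F τ i j (decide (G.Adj i j))) ≤
      Real.exp (2 * ε * (n : ℝ) ^ 2) := by
    intro τ
    refine (sum_graph_le (F τ) (hF0 τ)).trans ?_
    have h1 : pp (fun i j => F τ i j true + F τ i j false) ≤
        ∏ _i : Fin n, ∏ _j : Fin n, Real.exp (2 * ε) := by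
      rw [pp]
      refine Finset.prod_le_prod (fun i _ => Finset.prod_nonneg fun j _ => ?_) fun i _ =>
        Finset.prod_le_prod (fun j _ => ?_) fun j _ => ?_
      · split_ifs
        · rw [hFs]; linarith
        · norm_num
      · split_ifs
        · rw [hFs]; linarith
        · norm_num
      · have h2 := Real.add_one_le_exp (2 * ε)
        have h3 := Real.one_le_exp (show 0 ≤ 2 * ε by linarith)
        split_ifs with h
        · rw [hFs]; linarith
        · exact h3
    refine h1.trans (le_of_eq ?_)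
    simp only [Finset.prod_const, Finset.card_univ, Fintype.card_fin]
    rw [← Real.exp_nat_mul, ← Real.exp_nat_mul]
    congr 1
    ring
  calc ∑ G : SimpleGraph (Fin n), pp (fun i j => ps G K i j + ε)
      ≤ ∑ G : SimpleGraph (Fin n), ∑ τ : Fin n → Fin m → Bool,
          pp (fun i j => F τ i j (decide (G.Adj i j))) := by
        refine Finset.sum_le_sum fun G _ => ?_
        have h1 : pp (fun i j => ps G K i j + ε) =
            (fun τ : Fin n → Fin m → Bool => pp (fun i j => F τ i j (decide (G.Adj i j))))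
              (fun i t => decide (G.Adj (K t) i)) := by
          simp only [hF, ps, ev]
        rw [h1]
        refine Finset.single_le_sum
          (f := fun τ : Fin n → Fin m → Bool => pp (fun i j => F τ i j (decide (G.Adj i j))))
          (fun τ _ => pp_nonneg _ fun i j => hF0 τ i j _) (Finset.mem_univ _)
    _ = ∑ τ : Fin n → Fin m → Bool, ∑ G : SimpleGraph (Fin n),
          pp (fun i j => F τ i j (decide (G.Adj i j))) := Finset.sum_comm
    _ ≤ ∑ _τ : Fin n → Fin m → Bool, Real.exp (2 * ε * (n : ℝ) ^ 2) :=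
        Finset.sum_le_sum fun τ _ => hfix τ
    _ = ((2 : ℝ) ^ m) ^ n * Real.exp (2 * ε * (n : ℝ) ^ 2) := by
        simp

lemma main_bound {n : ℕ} (hn : 3 ≤ n) {ε : ℝ} (hε : 0 < ε) {r : ℕ} (hr : 0 < r) :
    ∑ G : SimpleGraph (Fin n), pp (fun i j => ph G i j + ε) ≤
      Real.exp ((n : ℝ) ^ 2 * (1 / (ε * r))) *
        ((n : ℝ) ^ (r ^ 2) * (((2 : ℝ) ^ (r ^ 2)) ^ n * Real.exp (2 * ε * (n : ℝ) ^ 2))) := by
  have h1 : ∀ G : SimpleGraph (Fin n), pp (fun i j => ph G i j + ε) ≤
      Real.exp ((n : ℝ) ^ 2 * (1 / (ε * r))) *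
        ∑ K : Fin (r ^ 2) → Fin n, pp (fun i j => ps G K i j + ε) := by
    intro G
    obtain ⟨K, hK⟩ := exists_good (by omega) G hε hr
    refine hK.trans (mul_le_mul_of_nonneg_left ?_ (Real.exp_pos _).le)
    exact Finset.single_le_sum
      (f := fun K : Fin (r ^ 2) → Fin n => pp (fun i j => ps G K i j + ε))
      (fun K _ => pp_nonneg _ fun i j => by have := ps_nonneg G K i j; linarith)
      (Finset.mem_univ K)
  calc ∑ G : SimpleGraph (Fin n), pp (fun i j => ph G i j + ε)
      ≤ ∑ G : SimpleGraph (Fin n), Real.exp ((n : ℝ) ^ 2 * (1 / (ε * r))) *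
        ∑ K : Fin (r ^ 2) → Fin n, pp (fun i j => ps G K i j + ε) :=
        Finset.sum_le_sum fun G _ => h1 G
    _ = Real.exp ((n : ℝ) ^ 2 * (1 / (ε * r))) * ∑ K : Fin (r ^ 2) → Fin n,
        ∑ G : SimpleGraph (Fin n), pp (fun i j => ps G K i j + ε) := by
        rw [← Finset.mul_sum, Finset.sum_comm]
    _ ≤ Real.exp ((n : ℝ) ^ 2 * (1 / (ε * r))) * ∑ _K : Fin (r ^ 2) → Fin n,
        (((2 : ℝ) ^ (r ^ 2)) ^ n * Real.exp (2 * ε * (n : ℝ) ^ 2)) :=
        mul_le_mul_of_nonneg_left
          (Finset.sum_le_sum fun K _ => sum_fixed (by positivity) K hε) (Real.exp_pos _).le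
    _ = _ := by simp

/-- For every ε>0 and all large n, summing over all graphs on n vertices the product over pairs i<j of the fraction of other vertices k with an even number of edges in triangle ijk gives at most 2^(εn²). -/
theorem result :
    ∀ ε : ℝ, 0 < ε → ∃ N : ℕ, ∀ n : ℕ, N ≤ n →
      (∑ G : SimpleGraph (Fin n),
        ∏ i : Fin n, ∏ j : Fin n,
          (if i < j then
            (((Finset.univ.filter (fun k : Fin n => k ≠ i ∧ k ≠ j ∧
                Even ((if G.Adj i j then 1 else 0) + (if G.Adj i k then 1 else 0)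
                  + (if G.Adj j k then 1 else 0) : ℕ))).card : ℝ) / ((n : ℝ) - 2))
          else 1)) ≤ (2 : ℝ) ^ (ε * (n : ℝ) ^ 2) := by
  intro ε₀ hε₀
  set L := ε₀ * Real.log 2 with hL
  have hlog2 : 0 < Real.log 2 := Real.log_pos (by norm_num)
  have hlog2' : Real.log 2 ≤ 1 := by
    have := Real.log_two_lt_d9
    linarith
  have hL0 : 0 < L := mul_pos hε₀ hlog2
  set ε := L / 8 with hε
  have hε0 : 0 < ε := by positivity
  obtain ⟨r, hr⟩ := exists_nat_gt (4 / (ε * L))
  have hr0 : 0 < r := by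
    have h1 : (0 : ℝ) < r := lt_trans (by positivity) hr
    exact_mod_cast h1
  have hr0' : (0 : ℝ) < r := by exact_mod_cast hr0
  have hr1 : 1 / (ε * r) ≤ L / 4 := by
    rw [div_lt_iff₀ (by positivity)] at hr
    rw [div_le_div_iff₀ (by positivity) (by norm_num)]
    nlinarith
  obtain ⟨N, hN⟩ := exists_nat_gt (8 * (r : ℝ) ^ 2 / L)
  refine ⟨max N 3, fun n hn => ?_⟩
  have hn3 : 3 ≤ n := le_trans (le_max_right _ _) hn
  have hnN : N ≤ n := le_trans (le_max_left _ _) hn
  have hn3' : (3 : ℝ) ≤ n := by exact_mod_cast hn3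
  have hnN' : (N : ℝ) ≤ n := by exact_mod_cast hnN
  have hnp : (0 : ℝ) < n := by linarith
  have hbig : 8 * (r : ℝ) ^ 2 ≤ L * n := by
    rw [div_lt_iff₀ hL0] at hN
    nlinarith
  have hcmp : (∑ G : SimpleGraph (Fin n),
        ∏ i : Fin n, ∏ j : Fin n,
          (if i < j then
            (((Finset.univ.filter (fun k : Fin n => k ≠ i ∧ k ≠ j ∧
                Even ((if G.Adj i j then 1 else 0) + (if G.Adj i k then 1 else 0)
                  + (if G.Adj j k then 1 else 0) : ℕ))).card : ℝ) / ((n : ℝ) - 2))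
          else 1)) ≤ ∑ G : SimpleGraph (Fin n), pp (fun i j => ph G i j + ε) := by
    refine Finset.sum_le_sum fun G _ => ?_
    refine pp_le (fun i j => (((Finset.univ.filter (fun k : Fin n => k ≠ i ∧ k ≠ j ∧
                Even ((if G.Adj i j then 1 else 0) + (if G.Adj i k then 1 else 0)
                  + (if G.Adj j k then 1 else 0) : ℕ))).card : ℝ) / ((n : ℝ) - 2))) _ ?_ ?_
    · intro i j
      exact div_nonneg (by positivity) (by linarith)
    · intro i j hij
      have := frac_le hn3 G i j hij.ne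
      have h2 : ph G i j = (∑ k, ev G i j k) / n := rfl
      linarith
  refine hcmp.trans ((main_bound hn3 hε0 hr0).trans ?_)
  have e1 : ((2 : ℝ) ^ (r ^ 2)) ^ n = Real.exp (Real.log 2 * (r : ℝ) ^ 2 * n) := by
    rw [mul_assoc, Real.exp_mul, Real.exp_log (by norm_num), ← pow_mul, ← Real.rpow_natCast]
    push_cast
    rfl
  have e2 : (n : ℝ) ^ (r ^ 2) = Real.exp (Real.log n * (r : ℝ) ^ 2) := by
    rw [Real.exp_mul, Real.exp_log hnp, ← Real.rpow_natCast]
    push_cast
    rfl
  have e3 : (2 : ℝ) ^ (ε₀ * (n : ℝ) ^ 2) = Real.exp (L * (n : ℝ) ^ 2) := by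
    rw [Real.rpow_def_of_pos (by norm_num), hL]
    congr 1
    ring
  rw [e1, e2, e3, ← Real.exp_add, ← Real.exp_add, ← Real.exp_add]
  apply Real.exp_le_exp.2
  have hlogn : Real.log n ≤ n := by
    have := Real.log_le_sub_one_of_pos hnp
    linarith
  have hn2 : (0 : ℝ) < (n : ℝ) ^ 2 := by positivity
  have t1 : (n : ℝ) ^ 2 * (1 / (ε * r)) ≤ (n : ℝ) ^ 2 * (L / 4) :=
    mul_le_mul_of_nonneg_left hr1 hn2.le
  have t2 : Real.log n * (r : ℝ) ^ 2 ≤ (n : ℝ) * (r : ℝ) ^ 2 :=
    mul_le_mul_of_nonneg_right hlogn (by positivity)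
  have t3 : Real.log 2 * (r : ℝ) ^ 2 * n ≤ 1 * (r : ℝ) ^ 2 * n := by
    gcongr
  have t4 : 8 * (r : ℝ) ^ 2 * n ≤ L * n * n := by
    gcongr
  have t5 : 2 * ε * (n : ℝ) ^ 2 = L / 4 * (n : ℝ) ^ 2 := by
    rw [hε]; ring
  nlinarith

end Pool.Agent.S11885
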