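import Pool.Statements.S13772

set_option autoImplicit false
open Pool Pool.MP_b1ea19_gt

namespace Pool.Agent.S13772

open Set Topology

/-! The closed topologist's sine curve `X` is a counterexample. For every subcontinuum `C` the set
of local separating points of `C` is squeezed between a dense connected subset of `C` and `C`. -/

/-- the map `u ↦ (u, sin (1/u))` -/
noncomputable def g (u : ℝ) : ℝ × ℝ := (u, Real.sin (1 / u))

/-- the ray of the sine curve -/
def ray : Set (ℝ × ℝ) := g '' Ioc 0 1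

/-- the closed topologist's sine curve -/
abbrev X : Type := ↥(closure ray)

lemma g_contOn : ContinuousOn g (Ioi 0) := by
  unfold g
  refine continuousOn_id.prodMk (Real.continuous_sin.comp_continuousOn ?_)
  exact continuousOn_const.div continuousOn_id (fun x hx => ne_of_gt hx)

lemma ray_conn : IsConnected ray :=
  (isConnected_Ioc (by norm_num : (0:ℝ) < 1)).image _ (g_contOn.mono fun _ hx => hx.1)

lemma ray_sub : ray ⊆ Icc 0 1 ×ˢ Icc (-1) 1 := by
  rintro _ ⟨u, hu, rfl⟩
  exact ⟨⟨hu.1.le, hu.2⟩, ⟨Real.neg_one_le_sin _, Real.sin_le_one _⟩⟩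

lemma cl_sub : closure ray ⊆ Icc 0 1 ×ˢ Icc (-1) 1 :=
  closure_minimal ray_sub (isClosed_Icc.prod isClosed_Icc)

instance : CompactSpace X :=
  isCompact_iff_compactSpace.1 ((isCompact_Icc.prod isCompact_Icc).of_isClosed_subset
    isClosed_closure cl_sub)

instance : ConnectedSpace X := isConnected_iff_connectedSpace.1 ray_conn.closure

noncomputable def px (p : X) : ℝ := p.1.1
noncomputable def py (p : X) : ℝ := p.1.2

lemma px_cont : Continuous px := continuous_fst.comp continuous_subtype_val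
lemma py_cont : Continuous py := continuous_snd.comp continuous_subtype_val

lemma px_mem (p : X) : 0 ≤ px p ∧ px p ≤ 1 := (cl_sub p.2).1
lemma py_mem (p : X) : -1 ≤ py p ∧ py p ≤ 1 := (cl_sub p.2).2

lemma py_eq (p : X) (h : 0 < px p) : py p = Real.sin (1 / px p) := by
  have hcl : IsClosed {q : X | 0 < px q → py q = Real.sin (1 / px q)} := by
    -- complement is open
    rw [← isOpen_compl_iff]
    have : {q : X | 0 < px q → py q = Real.sin (1 / px q)}ᶜ =
        {q : X | 0 < px q ∧ py q ≠ Real.sin (1 / px q)} := by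
      ext q; simp
    rw [this, isOpen_iff_mem_nhds]
    rintro q ⟨h1, h2⟩
    have hc : ContinuousAt (fun q : X => py q - Real.sin (1 / px q)) q := by
      refine py_cont.continuousAt.sub (Real.continuous_sin.continuousAt.comp ?_)
      exact continuousAt_const.div px_cont.continuousAt h1.ne'
    filter_upwards [px_cont.continuousAt.eventually (lt_mem_nhds h1),
      hc.eventually_ne (sub_ne_zero.2 h2)] with r hr1 hr2
    exact ⟨hr1, sub_ne_zero.1 hr2⟩
  have hd : Dense (Subtype.val ⁻¹' ray : Set X) := by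
    intro q
    rw [closure_subtype]
    have : (Subtype.val '' (Subtype.val ⁻¹' ray : Set X)) = ray := by
      rw [Subtype.image_preimage_coe]
      exact inter_eq_right.2 subset_closure
    rw [this]
    exact q.2
  have hsub : (Subtype.val ⁻¹' ray : Set X) ⊆ {q : X | 0 < px q → py q = Real.sin (1 / px q)} := by
    rintro ⟨q, hq⟩ ⟨u, hu, hu2⟩ _
    simp only at hu2
    subst hu2
    rfl
  have := (closure_minimal hsub hcl) (hd p)
  exact this h

lemma ext_px {p q : X} (h : 0 < px p) (hpq : px q = px p) : q = p := by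
  apply Subtype.ext
  refine Prod.ext hpq ?_
  have h1 := py_eq p h
  have h2 := py_eq q (hpq ▸ h)
  rw [hpq] at h2
  exact h2.trans h1.symm

/-- the point of the ray with abscissa `u` -/
lemma g_mem {u : ℝ} (hu : 0 < u) (hu1 : u ≤ 1) : g u ∈ closure ray :=
  subset_closure ⟨u, ⟨hu, hu1⟩, rfl⟩

/-- any height occurs arbitrarily close to the bar -/
lemma exists_height {y δ : ℝ} (hy : -1 ≤ y) (hy1 : y ≤ 1) (hδ : 0 < δ) :
    ∃ u, 0 < u ∧ u < δ ∧ Real.sin (1 / u) = y := by
  obtain ⟨n, hn⟩ := exists_nat_gt ((1 / δ + Real.pi) / (2 * Real.pi))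
  have hpi := Real.pi_pos
  have h1 : 1 / δ + Real.pi < n * (2 * Real.pi) := by
    rwa [div_lt_iff₀ (by positivity)] at hn
  have h2 : -(Real.pi / 2) ≤ Real.arcsin y := Real.neg_pi_div_two_le_arcsin y
  have h3 : 1 / δ < Real.arcsin y + n * (2 * Real.pi) := by linarith
  have hδ' : 0 < 1 / δ := by positivity
  refine ⟨1 / (Real.arcsin y + n * (2 * Real.pi)), one_div_pos.2 (by linarith), ?_, ?_⟩
  · rw [div_lt_iff₀ (by linarith)]
    rw [div_lt_iff₀ hδ] at h3
    linarith
  · rw [one_div_one_div, Real.sin_add_nat_mul_two_pi, Real.sin_arcsin hy hy1]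

/-- points of `C` which are strictly between two points of `C` with respect to `h` -/
def Mid (h : X → ℝ) (C : Set X) : Set X := {p | p ∈ C ∧ ∃ q ∈ C, ∃ r ∈ C, h q < h p ∧ h p < h r}

/-- local separating points -/
def L (C : Set X) : Set X := {p : X | p ∈ C ∧ ∃ V : Set X, IsOpen V ∧ p ∈ V ∧
          ¬ IsPreconnected (connectedComponentIn (V ∩ C) p \ {p})}

lemma mid_sub_L {h : X → ℝ} (hh : Continuous h) {C : Set X} (hC : IsPreconnected C)
    (hinj : ∀ p ∈ Mid h C, ∀ q ∈ C, h q = h p → q = p) : Mid h C ⊆ L C := by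
  rintro p ⟨hp, q, hq, r, hr, hqp, hpr⟩
  refine ⟨hp, univ, isOpen_univ, mem_univ _, ?_⟩
  rw [univ_inter, hC.connectedComponentIn hp]
  intro hcon
  obtain ⟨z, hz, hz1, hz2⟩ := hcon {z | h z < h p} {z | h p < h z}
    (isOpen_lt hh continuous_const) (isOpen_lt continuous_const hh)
    (by
      rintro z ⟨hz, hzp⟩
      rcases lt_trichotomy (h z) (h p) with h1 | h1 | h1
      · exact Or.inl h1
      · exact absurd (hinj p ⟨hp, q, hq, r, hr, hqp, hpr⟩ z hz h1) hzp
      · exact Or.inr h1)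
    ⟨q, ⟨hq, fun h' => by rw [h'] at hqp; exact lt_irrefl _ hqp⟩, hqp⟩
    ⟨r, ⟨hr, fun h' => by rw [h'] at hpr; exact lt_irrefl _ hpr⟩, hpr⟩
  have hz1' : h z < h p := hz1
  have hz2' : h p < h z := hz2
  exact absurd (lt_trans hz1' hz2') (lt_irrefl _)

lemma L_sub (C : Set X) : L C ⊆ C := fun _ h => h.1

lemma L_preconn {C : Set X} (hC : IsPreconnected C) : IsPreconnected (L C) := by
  by_cases hx : ∃ q ∈ C, ∃ r ∈ C, px q < px r
  · -- the horizontal coordinate is not constant on `C`
    have hpos : ∀ p ∈ Mid px C, 0 < px p := by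
      rintro p ⟨_, q, _, r, _, hqp, _⟩
      exact lt_of_le_of_lt (px_mem q).1 hqp
    have hsub := mid_sub_L px_cont hC (fun p hp q _ hqp => ext_px (hpos p hp) hqp)
    have hI : (px '' C).OrdConnected := (hC.image _ px_cont.continuousOn).ordConnected
    set T : Set ℝ := {u | ∃ q ∈ C, ∃ r ∈ C, px q < u ∧ u < px r} with hT
    have hTpos : ∀ u ∈ T, 0 < u := by
      rintro u ⟨q, _, r, _, hqp, _⟩
      exact lt_of_le_of_lt (px_mem q).1 hqp
    have hTmem : ∀ u ∈ T, ∃ p ∈ C, px p = u := by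
      rintro u ⟨q, hq, r, hr, hqp, hpr⟩
      obtain ⟨p, hp, hpu⟩ := hI.out ⟨q, hq, rfl⟩ ⟨r, hr, rfl⟩ ⟨hqp.le, hpr.le⟩
      exact ⟨p, hp, hpu⟩
    have hTconn : IsPreconnected T := by
      apply Set.OrdConnected.isPreconnected
      constructor
      rintro u ⟨q, hq, r, hr, h1, h2⟩ v ⟨q', hq', r', hr', h1', h2'⟩ w ⟨hw1, hw2⟩
      exact ⟨q, hq, r', hr', lt_of_lt_of_le h1 hw1, lt_of_le_of_lt hw2 h2'⟩
    have himg : Subtype.val '' Mid px C = g '' T := by
      ext z
      constructor
      · rintro ⟨p, ⟨hp, q, hq, r, hr, h1, h2⟩, rfl⟩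
        refine ⟨px p, ⟨q, hq, r, hr, h1, h2⟩, ?_⟩
        refine Prod.ext rfl ?_
        exact (py_eq p (lt_of_le_of_lt (px_mem q).1 h1)).symm
      · rintro ⟨u, hu, rfl⟩
        obtain ⟨p, hp, hpu⟩ := hTmem u hu
        obtain ⟨q, hq, r, hr, h1, h2⟩ := hu
        subst hpu
        refine ⟨p, ⟨hp, q, hq, r, hr, h1, h2⟩, ?_⟩
        refine Prod.ext rfl ?_
        exact py_eq p (lt_of_le_of_lt (px_mem q).1 h1)
    have hMconn : IsPreconnected (Mid px C) := by
      rw [← IsInducing.subtypeVal.isPreconnected_image, himg]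
      exact hTconn.image _ (g_contOn.mono fun u hu => hTpos u hu)
    obtain ⟨q₀, hq₀, r₀, hr₀, h₀⟩ := hx
    have hdense : C ⊆ closure (Mid px C) := by
      intro p hp
      rw [closure_subtype, himg]
      -- a point of `T`
      obtain ⟨u₀, hu₀, hu₀'⟩ := exists_between h₀
      have hu₀T : u₀ ∈ T := ⟨q₀, hq₀, r₀, hr₀, hu₀, hu₀'⟩
      by_cases hpT : px p ∈ T
      · apply subset_closure
        rw [← himg]
        obtain ⟨q, hq, r, hr, h1, h2⟩ := hpT
        exact ⟨p, ⟨hp, q, hq, r, hr, h1, h2⟩, rfl⟩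
      rcases (px_mem p).1.eq_or_lt with h0 | h0
      · -- `p` is on the bar
        rw [Metric.mem_closure_iff]
        intro ε hε
        obtain ⟨u, hu0, hu1, hu2⟩ := exists_height (py_mem p).1 (py_mem p).2
          (lt_min (hTpos _ hu₀T) hε)
        refine ⟨g u, ⟨u, ⟨p, hp, r₀, hr₀, by rw [← h0]; exact hu0,
          (hu1.trans_le (min_le_left _ _)).trans hu₀'⟩, rfl⟩, ?_⟩
        rw [Prod.dist_eq]
        refine max_lt ?_ ?_
        · show dist (px p) u < ε
          rw [← h0, Real.dist_eq, zero_sub, abs_neg, abs_of_pos hu0]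
          exact hu1.trans_le (min_le_right _ _)
        · show dist (py p) (Real.sin (1 / u)) < ε
          rw [hu2, dist_self]; exact hε
      · -- `p` is on the ray
        have hgp : (p : ℝ × ℝ) = g (px p) := Prod.ext rfl (py_eq p h0)
        rw [hgp]
        have hcont : ContinuousWithinAt g T (px p) :=
          ((g_contOn.continuousAt (Ioi_mem_nhds h0))).continuousWithinAt
        apply hcont.mem_closure_image
        rcases lt_trichotomy (px p) u₀ with h1 | h1 | h1
        · have hsub : Ioo (px p) u₀ ⊆ T := fun v hv =>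
            ⟨p, hp, r₀, hr₀, hv.1, hv.2.trans hu₀'⟩
          apply closure_mono hsub
          rw [closure_Ioo h1.ne]
          exact ⟨le_rfl, h1.le⟩
        · exact absurd (h1 ▸ hu₀T) hpT
        · have hsub : Ioo u₀ (px p) ⊆ T := fun v hv =>
            ⟨q₀, hq₀, p, hp, hu₀.trans hv.1, hv.2⟩
          apply closure_mono hsub
          rw [closure_Ioo h1.ne]
          exact ⟨h1.le, le_rfl⟩
    exact hMconn.subset_closure hsub ((L_sub C).trans hdense)
  · push Not at hx
    -- the horizontal coordinate is constant on `C`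
    have hconst : ∀ q ∈ C, ∀ r ∈ C, px q = px r := fun q hq r hr =>
      le_antisymm (hx r hr q hq) (hx q hq r hr)
    have hinj : ∀ p ∈ C, ∀ q ∈ C, py q = py p → q = p := fun p hp q hq h =>
      Subtype.ext (Prod.ext (hconst q hq p hp) h)
    by_cases hy : ∃ q ∈ C, ∃ r ∈ C, py q < py r
    · obtain ⟨q₀, hq₀, r₀, hr₀, h₀⟩ := hy
      have hsub := mid_sub_L py_cont hC (fun p hp q hq hqp => hinj p hp.1 q hq hqp)
      have hI : (py '' C).OrdConnected := (hC.image _ py_cont.continuousOn).ordConnected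
      set T : Set ℝ := {u | ∃ q ∈ C, ∃ r ∈ C, py q < u ∧ u < py r} with hT
      have hTmem : ∀ u ∈ T, ∃ p ∈ C, py p = u := by
        rintro u ⟨q, hq, r, hr, hqp, hpr⟩
        obtain ⟨p, hp, hpu⟩ := hI.out ⟨q, hq, rfl⟩ ⟨r, hr, rfl⟩ ⟨hqp.le, hpr.le⟩
        exact ⟨p, hp, hpu⟩
      have hTconn : IsPreconnected T := by
        apply Set.OrdConnected.isPreconnected
        constructor
        rintro u ⟨q, hq, r, hr, h1, h2⟩ v ⟨q', hq', r', hr', h1', h2'⟩ w ⟨hw1, hw2⟩
        exact ⟨q, hq, r', hr', lt_of_lt_of_le h1 hw1, lt_of_le_of_lt hw2 h2'⟩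
      have himg : Subtype.val '' Mid py C = (fun v => (px q₀, v)) '' T := by
        ext z
        constructor
        · rintro ⟨p, ⟨hp, q, hq, r, hr, h1, h2⟩, rfl⟩
          exact ⟨py p, ⟨q, hq, r, hr, h1, h2⟩, Prod.ext (hconst q₀ hq₀ p hp) rfl⟩
        · rintro ⟨u, hu, rfl⟩
          obtain ⟨p, hp, hpu⟩ := hTmem u hu
          obtain ⟨q, hq, r, hr, h1, h2⟩ := hu
          subst hpu
          exact ⟨p, ⟨hp, q, hq, r, hr, h1, h2⟩, Prod.ext (hconst p hp q₀ hq₀) rfl⟩
      have hgc : Continuous (fun v : ℝ => ((px q₀, v) : ℝ × ℝ)) := by fun_prop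
      have hMconn : IsPreconnected (Mid py C) := by
        rw [← IsInducing.subtypeVal.isPreconnected_image, himg]
        exact hTconn.image _ hgc.continuousOn
      have hdense : C ⊆ closure (Mid py C) := by
        intro p hp
        rw [closure_subtype, himg]
        obtain ⟨u₀, hu₀, hu₀'⟩ := exists_between h₀
        have hu₀T : u₀ ∈ T := ⟨q₀, hq₀, r₀, hr₀, hu₀, hu₀'⟩
        have hgp : (p : ℝ × ℝ) = (fun v => ((px q₀, v) : ℝ × ℝ)) (py p) :=
          Prod.ext (hconst p hp q₀ hq₀) rfl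
        rw [hgp]
        apply hgc.continuousWithinAt.mem_closure_image
        rcases lt_trichotomy (py p) u₀ with h1 | h1 | h1
        · have hsub : Ioo (py p) u₀ ⊆ T := fun v hv =>
            ⟨p, hp, r₀, hr₀, hv.1, hv.2.trans hu₀'⟩
          apply closure_mono hsub
          rw [closure_Ioo h1.ne]
          exact ⟨le_rfl, h1.le⟩
        · exact subset_closure (h1 ▸ hu₀T)
        · have hsub : Ioo u₀ (py p) ⊆ T := fun v hv =>
            ⟨q₀, hq₀, p, hp, hu₀.trans hv.1, hv.2⟩
          apply closure_mono hsub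
          rw [closure_Ioo h1.ne]
          exact ⟨h1.le, le_rfl⟩
      exact hMconn.subset_closure hsub ((L_sub C).trans hdense)
    · push Not at hy
      have hss : C.Subsingleton := fun p hp q hq =>
        hinj q hq p hp (le_antisymm (hy q hq p hp) (hy p hp q hq))
      exact (hss.anti (L_sub C)).isPreconnected

/-- the point `(0, 0)` of the bar -/
lemma zero_mem : ((0, 0) : ℝ × ℝ) ∈ closure ray := by
  rw [Metric.mem_closure_iff]
  intro ε hε
  obtain ⟨u, hu0, hu1, hu2⟩ := exists_height (y := 0) (by norm_num) (by norm_num)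
    (lt_min one_pos hε)
  refine ⟨g u, ⟨u, ⟨hu0, (hu1.trans_le (min_le_left _ _)).le⟩, rfl⟩, ?_⟩
  rw [Prod.dist_eq]
  refine max_lt ?_ ?_
  · show dist 0 u < ε
    rw [Real.dist_eq, zero_sub, abs_neg, abs_of_pos hu0]
    exact hu1.trans_le (min_le_right _ _)
  · show dist 0 (Real.sin (1 / u)) < ε
    rw [hu2, dist_self]; exact hε

lemma no_path (f : unitInterval → X) (hf : Continuous f) (h0 : px (f 0) = 0)
    (h1 : px (f 1) = 1) : False := by
  -- last parameter with abscissa zero
  set Z : Set unitInterval := {t | px (f t) = 0} with hZ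
  have hZc : IsCompact Z := (isClosed_eq (px_cont.comp hf) continuous_const).isCompact
  obtain ⟨t₀, ht₀, hmax⟩ := hZc.exists_isGreatest ⟨0, h0⟩
  have ht1 : t₀ < 1 := lt_of_le_of_ne unitInterval.le_one' (by
    rintro rfl
    have : px (f 1) = 0 := ht₀
    rw [h1] at this; norm_num at this)
  have hc : ContinuousAt (fun t => py (f t)) t₀ := (py_cont.comp hf).continuousAt
  rw [Metric.continuousAt_iff] at hc
  obtain ⟨δ, hδ, hclose⟩ := hc (1 / 2) (by norm_num)
  -- a parameter `t₁ > t₀` within `δ`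
  obtain ⟨t₁, ht₁, ht₁'⟩ : ∃ t₁ : unitInterval, t₀ < t₁ ∧ ∀ t ∈ Icc t₀ t₁, dist t t₀ < δ := by
    have hlt : (t₀ : ℝ) < 1 := ht1
    refine ⟨⟨min 1 (t₀ + δ / 2), ?_, min_le_left _ _⟩, ?_, ?_⟩
    · have := t₀.2.1
      positivity
    · show (t₀ : ℝ) < min 1 (t₀ + δ / 2)
      exact lt_min hlt (by linarith)
    · rintro t ⟨h2, h3⟩
      have h2' : (t₀ : ℝ) ≤ t := h2
      have h3' : (t : ℝ) ≤ min 1 (t₀ + δ / 2) := h3
      rw [Subtype.dist_eq, Real.dist_eq, abs_of_nonneg (by linarith)]
      have := h3'.trans (min_le_right _ _)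
      linarith
  have hpos : 0 < px (f t₁) := by
    refine lt_of_le_of_ne (px_mem _).1 fun h => ?_
    exact absurd (hmax (show t₁ ∈ Z from h.symm)) (not_le.2 ht₁)
  have hconn : IsPreconnected (Icc t₀ t₁) := isPreconnected_Icc
  have hI : ((fun t => px (f t)) '' Icc t₀ t₁).OrdConnected :=
    (hconn.image _ (px_cont.comp hf).continuousOn).ordConnected
  have key : ∀ y : ℝ, -1 ≤ y → y ≤ 1 → |y - py (f t₀)| < 1 / 2 := by
    intro y hy hy1
    obtain ⟨u, hu0, hu1, hu2⟩ := exists_height hy hy1 hpos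
    obtain ⟨t, ht, htu⟩ := hI.out ⟨t₀, ⟨le_rfl, ht₁.le⟩, rfl⟩ ⟨t₁, ⟨ht₁.le, le_rfl⟩, rfl⟩
      (show u ∈ Icc (px (f t₀)) (px (f t₁)) from ⟨by rw [show px (f t₀) = 0 from ht₀]; exact hu0.le,
        hu1.le⟩)
    have h2 : py (f t) = y := by
      simp only at htu
      rw [py_eq _ (by rw [htu]; exact hu0), htu, hu2]
    have h3 := hclose (ht₁' t ht)
    rw [Real.dist_eq, h2] at h3
    exact h3
  have k1 := abs_lt.1 (key 1 (by norm_num) le_rfl)
  have k2 := abs_lt.1 (key (-1) le_rfl (by norm_num))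
  linarith [k1.1, k1.2, k2.1, k2.2]

/-- The negation of the preceding statement: If X is a continuum in which every subcontinuum C has a connected set of local separating points, then any two distinct points of any connected subset of X are joined by an arc lying inside that subset. -/
theorem result :
    ¬ (∀ (X : Type) [MetricSpace X] [CompactSpace X] [ConnectedSpace X],
      (∀ C : Set X, IsCompact C → IsConnected C →
        IsPreconnected {p : X | p ∈ C ∧ ∃ V : Set X, IsOpen V ∧ p ∈ V ∧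
          ¬ IsPreconnected (connectedComponentIn (V ∩ C) p \ {p})}) →
      ∀ A : Set X, IsConnected A → ∀ x ∈ A, ∀ y ∈ A, x ≠ y →
        ∃ f : unitInterval → X, Continuous f ∧ Function.Injective f ∧
          f 0 = x ∧ f 1 = y ∧ Set.range f ⊆ A) := by
  intro H
  have h1 : ∀ C : Set X, IsCompact C → IsConnected C → IsPreconnected (L C) :=
    fun C _ hC => L_preconn hC.isPreconnected
  obtain ⟨f, hf, _, hf0, hf1, _⟩ := H X h1 univ isConnected_univ ⟨(0, 0), zero_mem⟩ (mem_univ _)
    ⟨g 1, g_mem one_pos le_rfl⟩ (mem_univ _) (by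
      intro h
      have := congrArg px h
      simp [px, g] at this)
  refine no_path f hf ?_ ?_
  · rw [hf0]; rfl
  · rw [hf1]; rfl

end Pool.Agent.S13772
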