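import Pool.Statements.S14037

set_option autoImplicit false
open Pool Pool.MP_d8b5e2_gt

namespace Pool.Agent.S14037

/-- If X is compact Hausdorff with the Δ-property (each decreasing sequence of sets with empty intersection expands to a decreasing open sequence with empty intersection) and f maps X continuously onto a Hausdorff Y, then Y has the Δ-property. -/
theorem result :
    ∀ (X Y : Type) [TopologicalSpace X] [TopologicalSpace Y] [CompactSpace X] [T2Space X]
      [T2Space Y] (f : X → Y), Continuous f → Function.Surjective f →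
      (∀ D : ℕ → Set X, Antitone D → (⋂ n, D n) = ∅ →
        ∃ V : ℕ → Set X, Antitone V ∧ (∀ n, IsOpen (V n)) ∧ (∀ n, D n ⊆ V n) ∧
          (⋂ n, V n) = ∅) →
      (∀ D : ℕ → Set Y, Antitone D → (⋂ n, D n) = ∅ →
        ∃ V : ℕ → Set Y, Antitone V ∧ (∀ n, IsOpen (V n)) ∧ (∀ n, D n ⊆ V n) ∧
          (⋂ n, V n) = ∅) := by
  intro X Y _ _ _ _ _ f hf hsurj hX D hD hD0
  have hclosed : IsClosedMap f := hf.isClosedMap
  obtain ⟨V, hVanti, hVopen, hDV, hV0⟩ := hX (fun n => f ⁻¹' D n)
    (fun m n hmn => Set.preimage_mono (hD hmn))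
    (by rw [← Set.preimage_iInter, hD0, Set.preimage_empty])
  refine ⟨fun n => (f '' (V n)ᶜ)ᶜ, ?_, ?_, ?_, ?_⟩
  · intro m n hmn
    exact Set.compl_subset_compl.2 (Set.image_mono (Set.compl_subset_compl.2 (hVanti hmn)))
  · intro n
    exact (hclosed _ (hVopen n).isClosed_compl).isOpen_compl
  · rintro n y hy ⟨x, hx, rfl⟩
    exact hx (hDV n hy)
  · rw [Set.eq_empty_iff_forall_notMem]
    intro y hy
    obtain ⟨x, rfl⟩ := hsurj y
    have hx : x ∈ ⋂ n, V n := by
      rw [Set.mem_iInter] at hy ⊢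
      intro n
      by_contra hxn
      exact hy n ⟨x, hxn, rfl⟩
    rw [hV0] at hx
    exact hx

end Pool.Agent.S14037
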