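import Pool.Statements.S17771
import Pool.Agent.W5h25.ErdosPowB
import Pool.Agent.W5h25.ErdosPowC

set_option autoImplicit false
open Pool Pool.MP_91e459_nt

namespace Pool.Agent.S17771

/-- For all n ≥ 1, m ≥ 2 with (1−1/m)^n > 1/2 and (1−1/(m−1))^n < 1/2: (m−1)^n exceeds 1^n+…+(m−2)^n and (m+1)^n is less than 1^n+…+m^n. -/
theorem result :
    ∀ m n : ℕ, 1 ≤ n → 2 ≤ m →
      (1 - 1 / (m : ℝ)) ^ n > 1 / 2 →
      (1 - 1 / ((m : ℝ) - 1)) ^ n < 1 / 2 →
      (m - 1) ^ n > ∑ i ∈ Finset.Icc 1 (m - 2), i ^ n ∧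
      (m + 1) ^ n < ∑ i ∈ Finset.Icc 1 m, i ^ n := by
  intro m n hn hm h1 h2
  have hmR : (2 : ℝ) ≤ m := by exact_mod_cast hm
  have hm0 : (0 : ℝ) < m := by linarith
  -- the first hypothesis in natural numbers
  have h1' : m ^ n < 2 * (m - 1) ^ n := by
    have e1 : (1 - 1 / (m : ℝ)) = ((m : ℝ) - 1) / m := by
      field_simp
    rw [e1, div_pow, gt_iff_lt, div_lt_div_iff₀ (by norm_num) (by positivity)] at h1
    have e2 : ((m - 1 : ℕ) : ℝ) = (m : ℝ) - 1 := by
      rw [Nat.cast_sub (by omega), Nat.cast_one]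
    have h3 : ((m ^ n : ℕ) : ℝ) < ((2 * (m - 1) ^ n : ℕ) : ℝ) := by
      push_cast
      rw [e2]
      linarith
    exact_mod_cast h3
  constructor
  · -- the first inequality, by Bernoulli
    obtain ⟨M, rfl⟩ : ∃ M, m = M + 1 := ⟨m - 1, by omega⟩
    have hM2 : 2 ≤ M := by
      by_contra hcon
      have : M = 1 := by omega
      subst this
      norm_num at h1'
      have : 2 ^ 1 ≤ 2 ^ n := Nat.pow_le_pow_right (by norm_num) hn
      omega
    have hMR : (2 : ℝ) ≤ M := by exact_mod_cast hM2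
    have hM0 : (0 : ℝ) < M := by linarith
    push_cast at h2
    rw [add_sub_cancel_right] at h2
    rw [Nat.add_sub_cancel, show M + 1 - 2 = M - 1 by omega]
    set r : ℝ := (1 - 1 / (M : ℝ)) ^ n with hr
    have hb : 0 ≤ 1 - 1 / (M : ℝ) := by
      rw [sub_nonneg, div_le_one hM0]
      linarith
    have hr0 : 0 ≤ r := pow_nonneg hb n
    have hterm : ∀ i ∈ Finset.Icc 1 (M - 1), ((i : ℝ)) ^ n ≤ (M : ℝ) ^ n * (1 / 2) ^ (M - i) := by
      intro i hi
      rw [Finset.mem_Icc] at hi
      obtain ⟨k, hk⟩ : ∃ k, M = i + k := ⟨M - i, by omega⟩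
      have hk' : M - i = k := by omega
      rw [hk']
      have b1 : 1 + (k : ℝ) * (-(1 / (M : ℝ))) ≤ (1 + -(1 / (M : ℝ))) ^ k := by
        apply one_add_mul_le_pow
        have : 1 / (M : ℝ) ≤ 1 := by
          rw [div_le_one hM0]
          linarith
        linarith
      have b2 : (i : ℝ) / M ≤ (1 - 1 / (M : ℝ)) ^ k := by
        have e : (i : ℝ) / M = 1 + (k : ℝ) * (-(1 / (M : ℝ))) := by
          have e3 : (M : ℝ) = i + k := by exact_mod_cast hk
          field_simp
          linarith
        rw [e]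
        refine b1.trans (le_of_eq ?_)
        congr 1
      have b3 : ((i : ℝ) / M) ^ n ≤ (1 / 2) ^ k := by
        calc ((i : ℝ) / M) ^ n ≤ ((1 - 1 / (M : ℝ)) ^ k) ^ n :=
              pow_le_pow_left₀ (by positivity) b2 n
          _ = r ^ k := by rw [hr, ← pow_mul, ← pow_mul, mul_comm]
          _ ≤ (1 / 2) ^ k := pow_le_pow_left₀ hr0 h2.le k
      rw [div_pow, div_le_iff₀ (by positivity)] at b3
      linarith
    have hgeo : ∀ M : ℕ, ∑ i ∈ Finset.Icc 1 (M - 1), (1 / 2 : ℝ) ^ (M - i) < 1 := by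
      intro M
      have g1 : ∑ i ∈ Finset.Icc 1 (M - 1), (1 / 2 : ℝ) ^ (M - i) =
          ∑ j ∈ Finset.Icc 1 (M - 1), (1 / 2 : ℝ) ^ j := by
        apply Finset.sum_bij' (fun i _ => M - i) (fun j _ => M - j)
        · intro i hi
          rw [Finset.mem_Icc] at *
          omega
        · intro i hi
          rw [Finset.mem_Icc] at *
          omega
        · intro i hi
          rw [Finset.mem_Icc] at hi
          omega
        · intro i hi
          rw [Finset.mem_Icc] at hi
          omega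
        · intro i hi
          rfl
      rw [g1]
      have g2 : ∀ K : ℕ, ∑ j ∈ Finset.Icc 1 K, (1 / 2 : ℝ) ^ j = 1 - (1 / 2) ^ K := by
        intro K
        induction K with
        | zero => simp
        | succ K ih =>
          rw [Finset.sum_Icc_succ_top (by omega), ih, pow_succ]
          ring
      rw [g2]
      have : (0 : ℝ) < (1 / 2) ^ (M - 1) := by positivity
      linarith
    have hfin : ((∑ i ∈ Finset.Icc 1 (M - 1), i ^ n : ℕ) : ℝ) < ((M ^ n : ℕ) : ℝ) := by
      push_cast
      calc ∑ i ∈ Finset.Icc 1 (M - 1), (i : ℝ) ^ n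
          ≤ ∑ i ∈ Finset.Icc 1 (M - 1), (M : ℝ) ^ n * (1 / 2) ^ (M - i) :=
            Finset.sum_le_sum hterm
        _ = (M : ℝ) ^ n * ∑ i ∈ Finset.Icc 1 (M - 1), (1 / 2 : ℝ) ^ (M - i) := by
            rw [Finset.mul_sum]
        _ < (M : ℝ) ^ n * 1 := by
            apply mul_lt_mul_of_pos_left (hgeo M)
            positivity
        _ = (M : ℝ) ^ n := mul_one _
    exact_mod_cast hfin
  · rcases Nat.lt_or_ge m 1000 with hm1 | hm1
    · exact Pool.Agent.W5h25.ErdosPow.small hm hm1 hn h1'
    · have h3 := Pool.Agent.W5h25.ErdosPow.analytic (n := n) hm1 h1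
      have hm10 : (0 : ℝ) < (m : ℝ) + 1 := by linarith
      have h4 : ∑ i ∈ Finset.range m, (1 - ((i + 1 : ℕ) : ℝ) / ((m : ℝ) + 1)) ^ n =
          (∑ i ∈ Finset.Icc 1 m, (i : ℝ) ^ n) / ((m : ℝ) + 1) ^ n := by
        rw [Finset.sum_div]
        apply Finset.sum_bij' (fun i _ => m - i) (fun j _ => m - j)
        · intro i hi
          rw [Finset.mem_range] at hi
          rw [Finset.mem_Icc]
          omega
        · intro i hi
          rw [Finset.mem_Icc] at hi
          rw [Finset.mem_range]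
          omega
        · intro i hi
          rw [Finset.mem_range] at hi
          omega
        · intro i hi
          rw [Finset.mem_Icc] at hi
          omega
        · intro i hi
          rw [Finset.mem_range] at hi
          rw [← div_pow]
          congr 1
          rw [Nat.cast_sub (by omega)]
          push_cast
          field_simp
          ring
      rw [h4, lt_div_iff₀ (by positivity), one_mul] at h3
      exact_mod_cast h3

end Pool.Agent.S17771
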